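import Pool.Agent.N840.QF.Fld
import Pool.Agent.N840.FC.One
import Pool.Agent.Y445.WQ.CUB

/-!
# Exponents divisible by a power of two: relations for the norm of `z - ζ y`
-/

set_option autoImplicit false

namespace Pool.Agent.N840.QF

open NumberField IsDedekindDomain Polynomial Pool.Agent.Y546.WQ Pool.Agent.N840.FC

/-- a solution with exponent `2 ^ a p` in the first case -/
structure SolK (a p : ℕ) (K : Type) [Field K] [NumberField K] (x y z : 𝓞 K) : Prop where
  x0 : x ≠ 0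
  y0 : y ≠ 0
  z0 : z ≠ 0
  eq : x ^ (2 ^ a * p) + y ^ (2 ^ a * p) = z ^ (2 ^ a * p)
  cp : ∀ P : Ideal (𝓞 K), P.IsPrime → ((p : ℕ) : 𝓞 K) ∈ P → x ∉ P ∧ y ∉ P ∧ z ∉ P
  two : ∀ P : Ideal (𝓞 K), P.IsPrime → (2 : 𝓞 K) ∈ P → ¬ (x ∈ P ∧ y ∈ P ∧ z ∈ P)

section

variable {K : Type} [Field K] [NumberField K]

theorem SolK.negy {a p : ℕ} {x y z : 𝓞 K} (ha : 1 ≤ a) (h : SolK a p K x y z) :
    SolK a p K x (-y) z where
  x0 := h.x0
  y0 := neg_ne_zero.2 h.y0
  z0 := h.z0
  eq := by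
    obtain ⟨b, rfl⟩ := Nat.exists_eq_add_of_le ha
    rw [← h.eq, Even.neg_pow (by rw [pow_add, pow_one, mul_assoc]; exact even_two_mul _)]
  cp := fun P hP hp => ⟨(h.cp P hP hp).1, fun h' => (h.cp P hP hp).2.1 (neg_mem_iff.1 h'),
    (h.cp P hP hp).2.2⟩
  two := fun P hP h2 h' => h.two P hP h2 ⟨h'.1, neg_mem_iff.1 h'.2.1, h'.2.2⟩

/-- the powers satisfy a linear relation modulo the primes above `p` -/
theorem SolK.lin {a p : ℕ} {x y z : 𝓞 K} (h : SolK a p K x y z) (hp : p.Prime) (hp2 : p ≠ 2)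
    (P : Ideal (𝓞 K)) (hP : P.IsPrime) (hpP : ((p : ℕ) : 𝓞 K) ∈ P) :
    z ^ (2 ^ a) + -y ^ (2 ^ a) + -x ^ (2 ^ a) ∈ P := by
  have hodd : Odd p := hp.odd_of_ne_two hp2
  apply lin_p hp P hP hpP
  rw [hodd.neg_pow, hodd.neg_pow, ← pow_mul, ← pow_mul, ← pow_mul, ← h.eq]
  ring

theorem SolK.sub_notMem {a p : ℕ} {x y z : 𝓞 K} (h : SolK a p K x y z) (hp : p.Prime) (hp2 : p ≠ 2)
    (P : Ideal (𝓞 K)) (hP : P.IsPrime) (hpP : ((p : ℕ) : 𝓞 K) ∈ P) :
    z ^ (2 ^ a) - y ^ (2 ^ a) ∉ P ∧ z - y ∉ P := by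
  have h1 : z ^ (2 ^ a) - y ^ (2 ^ a) ∉ P := by
    intro h'
    have h2 := h.lin hp hp2 P hP hpP
    have h3 : x ^ (2 ^ a) ∈ P := by
      have e : x ^ (2 ^ a) = (z ^ (2 ^ a) - y ^ (2 ^ a)) -
          (z ^ (2 ^ a) + -y ^ (2 ^ a) + -x ^ (2 ^ a)) := by ring
      rw [e]
      exact P.sub_mem h' h2
    exact (h.cp P hP hpP).1 (hP.mem_of_pow_mem _ h3)
  refine ⟨h1, fun h' => h1 ?_⟩
  exact P.mem_of_dvd (sub_dvd_pow_sub_pow z y _) h'

theorem exists_inv {p : ℕ} [Fact p.Prime] (hp2 : p ≠ 2) (a : ℕ) :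
    ∃ k m : ℕ, 2 ^ a * k = 1 + p * m := by
  have hp : p.Prime := Fact.out
  have hc : Nat.Coprime (2 ^ a) p := by
    apply Nat.Coprime.pow_left
    rw [Nat.coprime_primes Nat.prime_two hp]
    exact fun h => hp2 h.symm
  obtain ⟨k, hk, hk'⟩ := Nat.exists_mul_mod_eq_one_of_coprime hc hp.one_lt
  refine ⟨k, 2 ^ a * k / p, ?_⟩
  have := Nat.div_add_mod (2 ^ a * k) p
  omega

/-- the relations for one pair and one sign -/
theorem datK {p : ℕ} [Fact p.Prime] (a : ℕ) (h7 : 7 ≤ p)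
    (hK : Module.finrank ℚ K = 2) (σ : 𝓞 K →+* 𝓞 K)
    (hN : ∀ a : 𝓞 K, ((Algebra.norm ℤ a : ℤ) : 𝓞 K) = a * σ a)
    (hT : ∀ a : 𝓞 K, ((Algebra.trace ℤ (𝓞 K) a : ℤ) : 𝓞 K) = a + σ a)
    {x y z : 𝓞 K} (s : SolK a p K x y z) (A B r : ℤ) (hA : A = Algebra.norm ℤ z)
    (hB : B = Algebra.norm ℤ y) (hr : r = Algebra.trace ℤ (𝓞 K) (z * σ y)) :
    ¬ (Even A ∧ Even (-r) ∧ Even B) ∧
    (¬ p ^ 2 ∣ 2 ^ (p - 1) - 1 → ∀ k : ℕ, Pat A (-r) B k →
      (k : ZMod p) * (A - r + B) = 2 * (-r + 2 * B)) ∧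
    (Reg p 3 → ((A : ZMod p) - B) * ((A - r + B) ^ 2 - 3 * (A + B) * (A - r + B) +
      2 * (A - B) ^ 2) = 0) ∧
    (Bern p 2 → (A : ZMod p) = B) := by
  have hpp : p.Prime := Fact.out
  have hp2 : p ≠ 2 := by omega
  have hσσ := conj_conj σ hT
  obtain ⟨E, _, _, ⟨c⟩⟩ := Y978.WQ.main p hp2
  obtain ⟨N, _, _, i, hcard, hD⟩ := Y258.WQ.mainDOWNG p E c K (by omega)
  have hD' : Dn p E N i := hD
  obtain ⟨f, hdeg, hc0, hcm, hev, hf'⟩ := Y290.WQ.mainNORM K z (-y)
  obtain ⟨g, -, -, -, hgev, hg'⟩ := Y290.WQ.mainNORM K (z ^ (2 ^ a)) (-y ^ (2 ^ a))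
  obtain ⟨kk, mm, hkm⟩ := exists_inv (p := p) hp2 a
  have hf := hf' N hcard
  have hg := hg' N hcard
  have h4 : ∀ P : Ideal (𝓞 K), P.IsPrime → (2 : 𝓞 K) ∈ P → ∀ w : 𝓞 K, w ^ 4 - w ∈ P :=
    fun P hP h2P => pow_four σ hN hT P hP h2P
  obtain ⟨h0, hg0, hv⟩ := fldK a kk mm hkm (by omega) c i hD' s.x0 s.y0 s.z0 s.eq
    (fun P hP hpP => (s.cp P hP hpP).1) s.two h4 f hf g hg
  have hcop := copK (2 ^ a * p) (by have := hpp.pos; positivity) (by omega) c i s.eq s.two h4 f hf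
  -- the coefficients
  have hcB : f.coeff 2 = B := by
    rw [← hK, hcm, hB]
    have : ((Algebra.norm ℤ (-y) : ℤ) : 𝓞 K) = (Algebra.norm ℤ y : ℤ) := by
      rw [hN, hN, map_neg]
      ring
    exact_mod_cast this
  have hcA : f.coeff 0 = A := by rw [hc0, hA]
  have hnat : f = C A + C (f.coeff 1) * X + C B * X ^ 2 := by
    have h1 := f.as_sum_range_C_mul_X_pow' (n := 3) (by rw [hK] at hdeg; omega)
    rw [Finset.sum_range_succ, Finset.sum_range_succ, Finset.sum_range_one] at h1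
    rw [hcA, hcB, pow_zero, mul_one, pow_one] at h1
    exact h1
  have hc1 : f.coeff 1 = -r := by
    have h1 := hev 1
    have h2 : f.eval 1 = A + f.coeff 1 + B := by
      conv_lhs => rw [hnat]
      simp
    rw [h2] at h1
    have h3 : ((A + f.coeff 1 + B : ℤ) : 𝓞 K) = ((A - r + B : ℤ) : 𝓞 K) := by
      rw [h1, hN]
      push_cast
      rw [hA, hB, hr, hN, hN, hT]
      simp only [map_add, map_neg, map_mul, map_one, hσσ]
      ring
    have h4 : A + f.coeff 1 + B = A - r + B := by exact_mod_cast h3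
    linarith
  rw [hc1] at hnat
  have hev1 : f.eval 1 = A + -r + B := by
    rw [hnat]
    simp
  have hpu : ¬ (p : ℤ) ∣ A + -r + B := by
    rw [← hev1, hev]
    apply norm_coprime hcard Y290.WQ.mainNORM p hpp
    intro P hP hpP h'
    apply (s.sub_notMem hpp hp2 P hP hpP).2
    have e : z - y = z + ((1 : ℤ) : 𝓞 K) * -y := by push_cast; ring
    rw [e]
    exact h'
  have hpg : ¬ (p : ℤ) ∣ g.eval 1 := by
    rw [hgev]
    apply norm_coprime hcard Y290.WQ.mainNORM p hpp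
    intro P hP hpP h'
    apply (s.sub_notMem hpp hp2 P hP hpP).1
    have e : z ^ (2 ^ a) - y ^ (2 ^ a) = z ^ (2 ^ a) + ((1 : ℤ) : 𝓞 K) * -y ^ (2 ^ a) := by
      push_cast; ring
    rw [e]
    exact h'
  have hpV : ¬ (p : ℤ) ∣ (g.eval 1) ^ (kk) := fun h =>
    hpg ((Nat.prime_iff_prime_int.1 hpp).dvd_of_dvd_pow h)
  -- not all coefficients are even
  have hne : ¬ (Even A ∧ Even (-r) ∧ Even B) := by
    rintro ⟨⟨a', ha'⟩, ⟨b', hb'⟩, ⟨e', he'⟩⟩
    obtain ⟨P, hP, hP2'⟩ := exists_above (K := E) 2 Nat.prime_two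
    have hP2 : (2 : 𝓞 E) ∈ P := by exact_mod_cast hP2'
    obtain ⟨u, hu, hup⟩ := exists_zint c
    have hw : ((aeval u f : 𝓞 E) : E) = aeval c.z f := by
      rw [← hu]
      exact (aeval_algebraMap_apply E u f).symm
    apply hcop P hP hP2 (aeval u f) hw
    rw [hnat, ha', hb', he']
    simp only [map_add, map_mul, map_pow, aeval_X, aeval_C]
    have e : ∀ v : ℤ, (algebraMap ℤ (𝓞 E)) v + (algebraMap ℤ (𝓞 E)) v =
        (algebraMap ℤ (𝓞 E)) v * 2 := fun v => by ring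
    rw [e, e, e]
    refine P.add_mem (P.add_mem (P.mul_mem_left _ hP2) ?_) ?_
    · exact P.mul_mem_right _ (P.mul_mem_left _ hP2)
    · exact P.mul_mem_right _ (P.mul_mem_left _ hP2)
  have hrel0 : Rel p (f.map (Int.castRingHom (ZMod p))) := by
    intro a' ha' hap'
    obtain ⟨g', hg', k', hk'⟩ := relGA aUNITA hp2 a' ha' hap' c f _ hpV
      (by rw [hev1]; exact hpu) h0 hv
    obtain ⟨r', hr', hdv'⟩ := Y919.WQ.mainLAMA p hp2 a' ha' hap' E c f _ hpV
      (by rw [hev1]; exact hpu) g' hg' k' hk'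
    exact ⟨k', r', hr', hdv'⟩
  refine ⟨hne, ?_, ?_, ?_⟩
  · intro hW k hk
    obtain ⟨t, n, hn, htn⟩ := exists_odd_part ((g.eval 1) ^ (kk)) (pow_ne_zero _ hg0)
    have hpn : ¬ (p : ℤ) ∣ n := fun h => hpV (htn ▸ dvd_mul_of_dvd_right h _)
    have := wieE (by omega) hW c A (-r) B n hn hpn hpu k hk f hnat h0 ?_ hcop
    · push_cast at this
      linear_combination this
    · intro P
      obtain ⟨u, hu, hup⟩ := exists_zint c
      have hΛ : algebraMap (𝓞 E) E (aeval u f) = aeval c.z f := by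
        have hu' : algebraMap (𝓞 E) E u = c.z := hu
        rw [← hu']
        exact (aeval_algebraMap_apply E u f).symm
      by_cases h2P : ((2 : ℕ) : 𝓞 E) ∈ P.asIdeal
      · refine ⟨0, ?_⟩
        have h2' : (2 : 𝓞 E) ∈ P.asIdeal := by exact_mod_cast h2P
        have hn1 : P.valuation E ((n : ℤ) : E) = 1 := by
          have := val_one P ((n : ℤ) : 𝓞 E) (int_notMem P.asIdeal P.isPrime 2 Nat.prime_two h2P n
            (by
              rw [Int.odd_iff] at hn
              intro h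
              push_cast at h
              omega))
          simpa using this
        rw [hn1, mul_zero, WithZero.exp_zero, mul_one, ← hΛ]
        exact val_one P _ (hcop P.asIdeal P.isPrime h2' _ hΛ)
      · obtain ⟨m, hm⟩ := hv P
        refine ⟨m, ?_⟩
        rw [hm, htn]
        congr 1
        push_cast
        rw [map_mul, map_pow]
        have h3 : P.valuation E (2 : E) = 1 := by
          have h10 : (((2 : ℕ) : 𝓞 E) : E) = 2 := map_natCast (algebraMap (𝓞 E) E) 2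
          have := val_one P ((2 : ℕ) : 𝓞 E) h2P
          rwa [h10] at this
        rw [h3, one_pow, one_mul]
  · intro hreg
    have hmap : f.map (Int.castRingHom (ZMod p)) = C (A : ZMod p) + C (-(r : ZMod p)) * X +
        C (B : ZMod p) * X ^ 2 := by
      rw [hnat]
      simp
    have hrel := hrel0
    rw [hmap] at hrel
    have hu0 : (A : ZMod p) + -(r : ZMod p) + B ≠ 0 := by
      intro h
      apply hpu
      apply (ZMod.intCast_zmod_eq_zero_iff_dvd _ p).1
      push_cast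
      exact h
    have := Y445.WQ.mainCUB p h7 _ _ _ hu0 hreg hrel
    linear_combination this
  · intro hreg
    have hz : ∀ k : ℤ, ¬ (p : ℤ) ∣ k → (Int.castRingHom (ZMod p)) k ≠ 0 := by
      intro k hk h0
      exact hk ((ZMod.intCast_zmod_eq_zero_iff_dvd k p).1 h0)
    have b1 : (f.map (Int.castRingHom (ZMod p))).natDegree ≤ 2 :=
      natDegree_map_le.trans (by rw [hK] at hdeg; exact hdeg)
    have b2 : (f.map (Int.castRingHom (ZMod p))).coeff 0 ≠ 0 := by
      rw [coeff_map, hc0]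
      exact hz _ (norm_coprime hcard Y290.WQ.mainNORM p hpp _ fun P hP hpP => (s.cp P hP hpP).2.2)
    have b3 : (f.map (Int.castRingHom (ZMod p))).coeff 2 ≠ 0 := by
      rw [coeff_map, ← hK, hcm]
      exact hz _ (norm_coprime hcard Y290.WQ.mainNORM p hpp _ fun P hP hpP h =>
        (s.cp P hP hpP).2.1 (neg_mem_iff.1 h))
    have b4 : (f.map (Int.castRingHom (ZMod p))).eval 1 ≠ 0 := by
      have e : (f.map (Int.castRingHom (ZMod p))).eval 1 = (Int.castRingHom (ZMod p)) (f.eval 1) := by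
        rw [eval_map, ← map_one (Int.castRingHom (ZMod p)), eval₂_hom]
      rw [e]
      exact hz _ (by rw [hev1]; exact hpu)
    have hm2 : 0 < 2 := by norm_num
    have h5 := hreg.le hm2
    have hpal : (f.map (Int.castRingHom (ZMod p))).reflect 2 = f.map (Int.castRingHom (ZMod p)) := by
      rcases hreg with h | h
      · refine Y510.WQ.mainPOLBA Y275.WQ.mainCOREA p _ _ h5 b1 b2 b3 b4 hrel0 fun j hj h3j hjm => ?_
        apply reg_of Y61.WQ.mainBER j hj h3j (by omega)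
        intro hk
        have := h.2 _ hk
        omega
      · refine Y590.WQ.mainPOLE Y780.WQ.mainPOLE1 Y286.WQ.mainPOLE2 p _ _
          ((irr p).image fun k => p - k) hm2 b1 b2 b3 b4 hrel0 ?_ ?_
        · intro j hj h3j hjp hjJ
          apply reg_of Y61.WQ.mainBER j hj h3j hjp
          intro hk
          apply hjJ
          rw [Finset.mem_image]
          exact ⟨p - j, hk, by omega⟩
        · have e : ((irr p).image fun k => p - k).card ≤ (irr p).card := Finset.card_image_le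
          have e2 : (((irr p).image fun k => p - k).card + 1) *
              (((irr p).image fun k => p - k).card + 2) ≤ ((irr p).card + 1) * ((irr p).card + 2) :=
            Nat.mul_le_mul (by omega) (by omega)
          have := Nat.mul_le_mul_left 2 e2
          omega
    have h2 := congrArg (fun g => g.coeff 0) hpal
    simp only [coeff_reflect, revAt_le (Nat.zero_le _), Nat.sub_zero, coeff_map, hcA, hcB,
      eq_intCast] at h2
    exact h2.symm

end

end Pool.Agent.N840.QF
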