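import Pool.Agent.N840.QF.Top

/-!
# The first case over all quadratic fields
-/

set_option autoImplicit false

namespace Pool.Agent.N840.QF

open NumberField IsDedekindDomain Polynomial Pool.Agent.Y546.WQ Pool.Agent.N840.FC

/-- a root of `T ^ 2 - T + 1` has order six -/
theorem six_of_pow {F : Type*} [Field F] (h2 : (2 : F) ≠ 0) (h3 : (3 : F) ≠ 0) {d : F}
    (hd : d ^ 2 - d + 1 = 0) {j : ℕ} (hj : d ^ j = 1) : 6 ∣ j := by
  have h5 : 3 ∣ j := by
    have h6 : (d ^ 2) ^ j = 1 := by rw [← pow_mul, mul_comm, pow_mul, hj, one_pow]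
    have h7 : orderOf (d ^ 2) = 3 := by
      apply orderOf_eq_prime
      · linear_combination (d ^ 4 + d ^ 3 - d - 1) * hd
      · intro h8
        have e1 : d = 2 := by linear_combination h8 - hd
        rw [e1] at hd
        apply h3
        linear_combination hd
    rw [← h7]
    exact orderOf_dvd_of_pow_eq_one h6
  have h8 : 2 ∣ j := by
    have e3 : d ^ 3 = -1 := by linear_combination (d + 1) * hd
    have h6 : (-1 : F) ^ j = 1 := by
      rw [← e3, ← pow_mul, mul_comm, pow_mul, hj, one_pow]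
    have h7 : orderOf (-1 : F) = 2 := by
      apply orderOf_eq_prime
      · norm_num
      · intro h9
        apply h2
        linear_combination -h9
    rw [← h7]
    exact orderOf_dvd_of_pow_eq_one h6
  exact Nat.Coprime.mul_dvd_of_dvd_of_dvd (by norm_num) h8 h5

theorem mul_gcd_aux (e k : ℕ) : k * (e / Nat.gcd e k) = e * (k / Nat.gcd e k) := by
  obtain ⟨u, hu⟩ := Nat.gcd_dvd_left e k
  obtain ⟨v, hv⟩ := Nat.gcd_dvd_right e k
  rcases Nat.eq_zero_or_pos (Nat.gcd e k) with h | h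
  · rw [h]
    simp
  · have e1 : e / Nat.gcd e k = u := by
      conv_lhs => rw [hu, Nat.gcd_comm]
      rw [Nat.gcd_comm, ← hu]
      exact Nat.div_eq_of_eq_mul_right h hu
    have e2 : k / Nat.gcd e k = v := Nat.div_eq_of_eq_mul_right h hv
    rw [e1, e2]
    calc k * u = (Nat.gcd e k * v) * u := by rw [← hv]
      _ = (Nat.gcd e k * u) * v := by ring
      _ = e * v := by rw [← hu]

/-- the arithmetic of orders -/
theorem orders {F : Type*} [Field F] (h2 : (2 : F) ≠ 0) (h3 : (3 : F) ≠ 0) {p : ℕ}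
    (hp3 : p % 3 = 1 ∨ p % 3 = 2) (hp1 : 1 < p) {b ν : F} (k k' a : ℕ) (hk : k = 2 ^ a * k') (hk' : Odd k')
    (hδ : (b ^ k) ^ 2 - b ^ k + 1 = 0) (hb : b ^ (p - 1) = 1 ∨ b ^ (p + 1) = ν)
    (hν : ν ^ (p - 1) = 1) (hνk : ν ^ k = 1) (hlev : p % 3 = 2 → ν ^ k' = 1) :
    6 ∣ (if p % 3 = 1 then p - 1 else p + 1) /
      Nat.gcd (if p % 3 = 1 then p - 1 else p + 1) k := by
  rcases hp3 with h | h
  · rw [if_pos h]
    have hb' : b ^ (p - 1) = 1 := by
      rcases hb with hb | hb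
      · exact hb
      · exfalso
        have e1 : (b ^ k) ^ (p + 1) = 1 := by
          rw [← pow_mul, mul_comm, pow_mul, hb, hνk]
        have := six_of_pow h2 h3 hδ e1
        omega
    apply six_of_pow h2 h3 hδ
    rw [← pow_mul, mul_gcd_aux, pow_mul, hb', one_pow]
  · rw [if_neg (by omega)]
    have hb' : b ^ (p + 1) = ν := by
      rcases hb with hb | hb
      · exfalso
        have e1 : (b ^ k) ^ (p - 1) = 1 := by
          rw [← pow_mul, mul_comm, pow_mul, hb, one_pow]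
        have := six_of_pow h2 h3 hδ e1
        omega
      · exact hb
    set M := (p + 1) / Nat.gcd (p + 1) k with hM
    have e1 : (b ^ k) ^ (M * (p - 1)) = 1 := by
      rw [← pow_mul, ← mul_assoc, hM, mul_gcd_aux, mul_assoc, pow_mul, hb', mul_comm, pow_mul, hν,
        one_pow]
    have e2 : (b ^ k) ^ (M * k') = 1 := by
      rw [← pow_mul, ← mul_assoc, hM, mul_gcd_aux, mul_assoc, pow_mul, hb', mul_comm, pow_mul,
        hlev h, one_pow]
    have f1 := six_of_pow h2 h3 hδ e1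
    have f2 := six_of_pow h2 h3 hδ e2
    have g1 : 3 ∣ M := by
      have : 3 ∣ M * (p - 1) := (by norm_num : 3 ∣ 6).trans f1
      rcases (Nat.Prime.dvd_mul Nat.prime_three).1 this with h' | h'
      · exact h'
      · omega
    have g2 : 2 ∣ M := by
      have : 2 ∣ M * k' := (by norm_num : 2 ∣ 6).trans f2
      rcases (Nat.Prime.dvd_mul Nat.prime_two).1 this with h' | h'
      · exact h'
      · exfalso
        obtain ⟨m, hm⟩ := hk'
        omega
    exact Nat.Coprime.mul_dvd_of_dvd_of_dvd (by norm_num) g2 g1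

section

variable {K : Type} [Field K] [NumberField K]

/-- the Frobenius on residues -/
theorem frob {p : ℕ} [Fact p.Prime] (σ : 𝓞 K →+* 𝓞 K)
    (hN : ∀ a : 𝓞 K, ((Algebra.norm ℤ a : ℤ) : 𝓞 K) = a * σ a)
    (hT : ∀ a : 𝓞 K, ((Algebra.trace ℤ (𝓞 K) a : ℤ) : 𝓞 K) = a + σ a)
    {F : Type} [Field F] [CharP F p] (φ : 𝓞 K →+* F) (w : 𝓞 K) :
    φ w ^ p = φ w ∨ φ w ^ p = φ (σ w) := by
  have h3 : w ^ 2 - ((Algebra.trace ℤ (𝓞 K) w : ℤ) : 𝓞 K) * w +
      ((Algebra.norm ℤ w : ℤ) : 𝓞 K) = 0 := by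
    rw [hN, hT]
    ring
  have h4 := congrArg (fun u => frobenius F p (φ u)) h3
  simp only [map_add, map_sub, map_mul, map_pow, map_intCast, map_zero] at h4
  have h5 : ((Algebra.trace ℤ (𝓞 K) w : ℤ) : F) = φ w + φ (σ w) := by
    rw [← map_add, ← hT, map_intCast]
  have h6 : ((Algebra.norm ℤ w : ℤ) : F) = φ w * φ (σ w) := by
    rw [← map_mul, ← hN, map_intCast]
  rw [h5, h6, frobenius_def] at h4
  have h7 : (φ w ^ p - φ w) * (φ w ^ p - φ (σ w)) = 0 := by linear_combination h4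
  rcases mul_eq_zero.1 h7 with h | h
  · exact Or.inl (sub_eq_zero.1 h)
  · exact Or.inr (sub_eq_zero.1 h)

theorem int_pow {p : ℕ} [Fact p.Prime] {F : Type} [Field F] [CharP F p] (n : ℤ) :
    (n : F) ^ p = n := by
  have := map_intCast (frobenius F p) n
  rwa [frobenius_def] at this

/-- the order of a quotient -/
theorem quot_cases {p : ℕ} [Fact p.Prime] (σ : 𝓞 K →+* 𝓞 K)
    (hN : ∀ a : 𝓞 K, ((Algebra.norm ℤ a : ℤ) : 𝓞 K) = a * σ a)
    (hT : ∀ a : 𝓞 K, ((Algebra.trace ℤ (𝓞 K) a : ℤ) : 𝓞 K) = a + σ a)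
    {F : Type} [Field F] [CharP F p] (φ : 𝓞 K →+* F) {z y : 𝓞 K} (hz : φ z ≠ 0) (hy : φ y ≠ 0)
    (hBy : ((Algebra.norm ℤ y : ℤ) : F) ≠ 0) :
    (φ z / φ y) ^ (p - 1) = 1 ∨ (φ z / φ y) ^ (p + 1) =
      ((Algebra.norm ℤ z : ℤ) : F) / ((Algebra.norm ℤ y : ℤ) : F) := by
  have hp : p.Prime := Fact.out
  have hσσ := conj_conj σ hT
  have hA : ((Algebra.norm ℤ z : ℤ) : F) = φ z * φ (σ z) := by
    rw [← map_mul, ← hN, map_intCast]
  have hB : ((Algebra.norm ℤ y : ℤ) : F) = φ y * φ (σ y) := by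
    rw [← map_mul, ← hN, map_intCast]
  have hyy : φ (σ y) ≠ 0 := by
    intro h0
    rw [hB, h0, mul_zero] at hBy
    exact hBy rfl
  have e0 : φ z / φ y = φ (z * σ y) / ((Algebra.norm ℤ y : ℤ) : F) := by
    rw [hB, map_mul]
    field_simp
  have e1 : (φ z / φ y) ^ p = φ (z * σ y) ^ p / ((Algebra.norm ℤ y : ℤ) : F) := by
    rw [e0, div_pow, int_pow]
  have hb0 : φ z / φ y ≠ 0 := div_ne_zero hz hy
  rcases frob σ hN hT φ (z * σ y) with h | h
  · left
    rw [h, ← e0] at e1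
    have e2 : (φ z / φ y) ^ (p - 1) * (φ z / φ y) = 1 * (φ z / φ y) := by
      rw [← pow_succ, Nat.sub_add_cancel hp.one_lt.le, e1, one_mul]
    exact mul_right_cancel₀ hb0 e2
  · right
    rw [pow_succ, e1, h, map_mul σ, hσσ, map_mul φ, hA]
    field_simp

/-- the main theorem on the powers dividing the exponent -/
theorem main {p : ℕ} (hp : p.Prime) (h11 : 11 ≤ p) (hK : Module.finrank ℚ K = 2)
    {k : ℕ} (hk : k ≠ 0)
    (hcond : Bern p 2 ∨ (p - 3 ∉ irr p ∧ ¬ p ^ 2 ∣ 2 ^ (p - 1) - 1) ∨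
      (Even k ∧ p ≠ 13 ∧ ¬ p ^ 2 ∣ 2 ^ (p - 1) - 1))
    {x y z : K} (hx : x ≠ 0) (hy : y ≠ 0) (hz : z ≠ 0)
    (h : x ^ (p * k) + y ^ (p * k) = z ^ (p * k))
    (hv : ∀ v : HeightOneSpectrum (𝓞 K), ((p : ℕ) : 𝓞 K) ∈ v.asIdeal →
      v.valuation K x = v.valuation K y ∧ v.valuation K y = v.valuation K z) :
    6 ∣ (if p % 3 = 1 then p - 1 else p + 1) /
      Nat.gcd (if p % 3 = 1 then p - 1 else p + 1) k := by
  have hfact : Fact p.Prime := ⟨hp⟩
  have hp2 : p ≠ 2 := by omega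
  obtain ⟨σ, hN, hT⟩ := Pool.Agent.Y546.SG.exists_conj hK
  have hσσ := conj_conj σ hT
  obtain ⟨c, hc0, X, Y, Z, hXc, hYc, hZc, hX0, hY0, hZ0, hcp, htwo⟩ := prepA hp hx hy hz hv
  have hXYZ : X ^ (p * k) + Y ^ (p * k) = Z ^ (p * k) := by
    apply RingOfIntegers.coe_injective
    rw [map_add, map_pow, map_pow, map_pow, hXc, hYc, hZc, mul_pow, mul_pow, mul_pow]
    linear_combination c ^ (p * k) * h
  -- solutions of all kinds
  have hsol : ∀ (a m : ℕ), k = 2 ^ a * m → SolK a p K (X ^ m) (Y ^ m) (Z ^ m) := by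
    intro a m hkm
    have hm0 : m ≠ 0 := by
      rintro rfl
      exact hk (by rw [hkm, mul_zero])
    refine ⟨pow_ne_zero _ hX0, pow_ne_zero _ hY0, pow_ne_zero _ hZ0, ?_, ?_, ?_⟩
    · have e : ∀ t : 𝓞 K, (t ^ m) ^ (2 ^ a * p) = t ^ (p * k) := by
        intro t
        rw [← pow_mul, hkm]
        congr 1
        ring
      rw [e, e, e, hXYZ]
    · intro P hP hpP
      obtain ⟨h1, h2, h3⟩ := hcp P hP hpP
      exact ⟨fun h => h1 (hP.mem_of_pow_mem _ h), fun h => h2 (hP.mem_of_pow_mem _ h),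
        fun h => h3 (hP.mem_of_pow_mem _ h)⟩
    · rintro P hP h2P ⟨h1, h2, h3⟩
      exact htwo P hP h2P ⟨hP.mem_of_pow_mem _ h1, hP.mem_of_pow_mem _ h2, hP.mem_of_pow_mem _ h3⟩
  -- a residue field
  obtain ⟨P, hP, hpP⟩ := exists_above (K := K) p hp
  have hP0 : P ≠ ⊥ := by
    rintro rfl
    rw [Ideal.mem_bot] at hpP
    exact hp.ne_zero (by exact_mod_cast hpP)
  have hPm : P.IsMaximal := hP.isMaximal hP0
  let _ : Field (𝓞 K ⧸ P) := Ideal.Quotient.field P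
  have hchar : CharP (𝓞 K ⧸ P) p := charP_quot P hP p hp hpP
  set φ : 𝓞 K →+* 𝓞 K ⧸ P := Ideal.Quotient.mk P with hφ
  have hφ0 : ∀ w : 𝓞 K, w ∉ P → φ w ≠ 0 := fun w hw h0 => hw (Ideal.Quotient.eq_zero_iff_mem.1 h0)
  have hZ1 : φ Z ≠ 0 := hφ0 Z (hcp P hP hpP).2.2
  have hY1 : φ Y ≠ 0 := hφ0 Y (hcp P hP hpP).2.1
  have hint : ∀ n m : ℤ, (n : ZMod p) = m → ((n : ℤ) : 𝓞 K ⧸ P) = m := by
    intro n m hnm
    have h1 := congrArg (ZMod.castHom (dvd_refl p) (𝓞 K ⧸ P)) hnm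
    rwa [map_intCast, map_intCast] at h1
  have hint0 : ∀ n : ℤ, (n : ZMod p) ≠ 0 → ((n : ℤ) : 𝓞 K ⧸ P) ≠ 0 := by
    intro n hn h0
    apply hn
    rw [ZMod.intCast_zmod_eq_zero_iff_dvd]
    exact (CharP.intCast_eq_zero_iff (𝓞 K ⧸ P) p n).1 h0
  have hAz := hint0 _ (norm_nz hp σ hN Z fun P hP hpP => (hcp P hP hpP).2.2)
  have hBy := hint0 _ (norm_nz hp σ hN Y fun P hP hpP => (hcp P hP hpP).2.1)
  have n2 : (2 : 𝓞 K ⧸ P) ≠ 0 := by
    intro h0
    have h1 : ((2 : ℕ) : 𝓞 K ⧸ P) = 0 := by exact_mod_cast h0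
    have h2 := (CharP.cast_eq_zero_iff (𝓞 K ⧸ P) p 2).1 h1
    have := Nat.le_of_dvd (by norm_num) h2
    omega
  have n3 : (3 : 𝓞 K ⧸ P) ≠ 0 := by
    intro h0
    have h1 : ((3 : ℕ) : 𝓞 K ⧸ P) = 0 := by exact_mod_cast h0
    have h2 := (CharP.cast_eq_zero_iff (𝓞 K ⧸ P) p 3).1 h1
    have := Nat.le_of_dvd (by norm_num) h2
    omega
  have hnu : ∀ {u v : 𝓞 K}, ((Algebra.norm ℤ u : ℤ) : ZMod p) = (Algebra.norm ℤ v : ℤ) →
      ((Algebra.norm ℤ u : ℤ) : 𝓞 K ⧸ P) = (Algebra.norm ℤ v : ℤ) := fun h => hint _ _ h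
  -- the top relation
  have htop : (φ Z ^ k) ^ 2 - φ Z ^ k * φ Y ^ k + (φ Y ^ k) ^ 2 = 0 ∧
      ((Algebra.norm ℤ Z : ℤ) : 𝓞 K ⧸ P) ^ k = ((Algebra.norm ℤ Y : ℤ) : 𝓞 K ⧸ P) ^ k := by
    have hodd : (Bern p 2 ∨ (p - 3 ∉ irr p ∧ ¬ p ^ 2 ∣ 2 ^ (p - 1) - 1)) →
        ((φ Z ^ k) ^ 2 - φ Z ^ k * φ Y ^ k + (φ Y ^ k) ^ 2 = 0 ∧
          ((Algebra.norm ℤ Z : ℤ) : 𝓞 K ⧸ P) ^ k = ((Algebra.norm ℤ Y : ℤ) : 𝓞 K ⧸ P) ^ k) := by
      intro hc
      have s0 : SolK 0 p K (X ^ k) (Y ^ k) (Z ^ k) := hsol 0 k (by simp)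
      obtain ⟨hAB, hAD, hr⟩ := topO h11 hc hK σ hN hT s0 _ _ _ _ rfl rfl rfl rfl
      have hA' := hnu hAB
      have hr' := hint _ _ hr
      rw [map_pow, map_pow] at hA'
      push_cast at hA'
      refine ⟨?_, hA'⟩
      set u := φ Z ^ k with hu
      set v := φ Y ^ k with hv'
      set u' := φ (σ Z) ^ k with hu'
      set v' := φ (σ Y) ^ k with hv''
      have c1 : ((Algebra.norm ℤ (Z ^ k) : ℤ) : 𝓞 K ⧸ P) = u * u' := by
        rw [hu, hu', ← map_pow, ← map_pow, ← map_pow σ, ← map_mul, ← hN, map_intCast]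
      have c2 : ((Algebra.norm ℤ (Y ^ k) : ℤ) : 𝓞 K ⧸ P) = v * v' := by
        rw [hv', hv'', ← map_pow, ← map_pow, ← map_pow σ, ← map_mul, ← hN, map_intCast]
      have c3 : ((Algebra.trace ℤ (𝓞 K) (Z ^ k * σ (Y ^ k)) : ℤ) : 𝓞 K ⧸ P) = u * v' + u' * v := by
        rw [← map_intCast φ, hT]
        simp only [map_add, map_mul, map_pow, hσσ, ← hu, ← hu', ← hv', ← hv'']
      have c4 := hnu hAB
      rw [c1, c2] at c4
      rw [c3, c1] at hr'
      have hu0 : u ≠ 0 := pow_ne_zero _ hZ1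
      have hv0 : v ≠ 0 := pow_ne_zero _ hY1
      have hvv : v * v' ≠ 0 := by
        rw [← c2]
        apply hint0
        apply norm_nz hp σ hN
        intro P hP hpP h
        exact (hcp P hP hpP).2.1 (hP.mem_of_pow_mem _ h)
      have e1 : (v * v') * (u ^ 2 - u * v + v ^ 2) = 0 := by
        linear_combination (u * v) * hr' - (v ^ 2 - u * v) * c4
      exact (mul_eq_zero.1 e1).resolve_left hvv
    rcases hcond with hc | hc | ⟨⟨k1, hk1⟩, hc⟩
    · exact hodd (Or.inl hc)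
    · exact hodd (Or.inr hc)
    · have s1 : SolK 1 p K (X ^ k1) (Y ^ k1) (Z ^ k1) := hsol 1 k1 (by rw [hk1]; ring)
      obtain ⟨hAB, hAD, hr⟩ := topE h11 (Or.inr hc) hK σ hN hT s1 _ _ _ _ rfl rfl rfl rfl
      have hA' := hnu hAB
      have hr' := hint ((Algebra.trace ℤ (𝓞 K) (Z ^ k1 * σ (Y ^ k1))) ^ 2)
        (3 * (Algebra.norm ℤ (Z ^ k1)) ^ 2) (by push_cast; exact hr)
      push_cast at hr'
      set u := φ Z ^ k1 with hu
      set v := φ Y ^ k1 with hv'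
      set u' := φ (σ Z) ^ k1 with hu'
      set v' := φ (σ Y) ^ k1 with hv''
      have c1 : ((Algebra.norm ℤ (Z ^ k1) : ℤ) : 𝓞 K ⧸ P) = u * u' := by
        rw [hu, hu', ← map_pow, ← map_pow, ← map_pow σ, ← map_mul, ← hN, map_intCast]
      have c2 : ((Algebra.norm ℤ (Y ^ k1) : ℤ) : 𝓞 K ⧸ P) = v * v' := by
        rw [hv', hv'', ← map_pow, ← map_pow, ← map_pow σ, ← map_mul, ← hN, map_intCast]
      have c3 : ((Algebra.trace ℤ (𝓞 K) (Z ^ k1 * σ (Y ^ k1)) : ℤ) : 𝓞 K ⧸ P) =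
          u * v' + u' * v := by
        rw [← map_intCast φ, hT]
        simp only [map_add, map_mul, map_pow, hσσ, ← hu, ← hu', ← hv', ← hv'']
      have c4 := hnu hAB
      rw [map_pow, map_pow] at hA'
      push_cast at hA'
      constructor
      · rw [c1, c2] at c4
        rw [c3, c1] at hr'
        have hvv : v * v' ≠ 0 := by
          rw [← c2]
          apply hint0
          apply norm_nz hp σ hN
          intro P hP hpP h
          exact (hcp P hP hpP).2.1 (hP.mem_of_pow_mem _ h)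
        have e1 : (v * v') ^ 2 * ((u * u) ^ 2 - (u * u) * (v * v) + (v * v) ^ 2) = 0 := by
          have e2 : (u * v) * (u * v' + u' * v) = (v * v') * (u ^ 2 + v ^ 2) := by
            linear_combination v ^ 2 * c4
          have e3 : ((u * v) * (u * v' + u' * v)) ^ 2 = 3 * (v * v') ^ 2 * (u * v) ^ 2 := by
            rw [mul_pow, hr', c4]
            ring
          rw [e2] at e3
          linear_combination e3
        have e4 := (mul_eq_zero.1 e1).resolve_left (pow_ne_zero 2 hvv)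
        rw [hk1, pow_add, pow_add, ← hu, ← hv']
        exact e4
      · rw [hk1, pow_add, pow_add, hA']
  -- powers of two
  obtain ⟨a, m, hm, hkm⟩ := Nat.exists_eq_two_pow_mul_odd hk
  have hlev : p % 3 = 2 → ((Algebra.norm ℤ Z : ℤ) : 𝓞 K ⧸ P) ^ m =
      ((Algebra.norm ℤ Y : ℤ) : 𝓞 K ⧸ P) ^ m := by
    intro h3
    rcases Nat.eq_zero_or_pos a with ha | ha
    · have : m = k := by rw [hkm, ha]; simp
      rw [this]
      exact htop.2
    · obtain ⟨b, rfl⟩ : ∃ b, a = b + 1 := ⟨a - 1, by omega⟩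
      have hc' : Bern p 2 ∨ (p ≠ 13 ∧ ¬ p ^ 2 ∣ 2 ^ (p - 1) - 1) := by
        rcases hcond with hc | hc | hc
        · exact Or.inl hc
        · refine Or.inr ⟨?_, hc.2⟩
          rintro rfl
          omega
        · exact Or.inr hc.2
      have h1 := hnu (lev h11 hc' hK σ hN hT b (hsol (b + 1) m hkm))
      rw [map_pow, map_pow] at h1
      push_cast at h1
      exact h1
  have hmod3 : p % 3 = 1 ∨ p % 3 = 2 := by
    have : ¬ 3 ∣ p := by
      intro hd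
      have := (Nat.prime_dvd_prime_iff_eq Nat.prime_three hp).1 hd
      omega
    omega
  set ν := ((Algebra.norm ℤ Z : ℤ) : 𝓞 K ⧸ P) / ((Algebra.norm ℤ Y : ℤ) : 𝓞 K ⧸ P) with hνd
  have hν0 : ν ≠ 0 := div_ne_zero hAz hBy
  have hνp : ν ^ (p - 1) = 1 := by
    have e1 : ν ^ p = ν := by
      rw [hνd, div_pow, int_pow, int_pow]
    have e2 : ν ^ (p - 1) * ν = 1 * ν := by
      rw [← pow_succ, Nat.sub_add_cancel hp.one_lt.le, e1, one_mul]
    exact mul_right_cancel₀ hν0 e2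
  refine orders n2 n3 hmod3 hp.one_lt (b := φ Z / φ Y) (ν := ν) k m a hkm hm ?_
    (quot_cases σ hN hT φ hZ1 hY1 hBy) hνp ?_ ?_
  · have hYk := pow_ne_zero k hY1
    have := htop.1
    rw [div_pow]
    field_simp
    linear_combination this
  · rw [hνd, div_pow, htop.2, div_self (pow_ne_zero _ hBy)]
  · intro h3
    rw [hνd, div_pow, hlev h3, div_self (pow_ne_zero _ hBy)]

end

end Pool.Agent.N840.QF
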