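import Pool.Agent.N840.QF.Ide
import Pool.Agent.Y546.WQ.EvnQ

/-!
# Exponents divisible by a power of two: the norm of `z - ζ y`
-/

set_option autoImplicit false

namespace Pool.Agent.N840.QF

open NumberField IsDedekindDomain Polynomial Pool.Agent.Y546.WQ

section

variable {p : ℕ} [Fact p.Prime] {E : Type} [Field E] [NumberField E]
  {K N : Type} [Field K] [NumberField K] [Field N] [NumberField N]

/-- `z - v y` is prime to two -/
theorem evn_unitK (n : ℕ) (hn0 : n ≠ 0) (h5 : 5 ≤ p) (T : 𝓞 K →+* 𝓞 N) (v : 𝓞 N) (hv : IsPrimitiveRoot v p)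
    (Q : Ideal (𝓞 N)) (hQ : Q.IsPrime) (h2Q : (2 : 𝓞 N) ∈ Q) {x y z : 𝓞 K}
    (h : x ^ n + y ^ n = z ^ n)
    (h4 : ∀ w : 𝓞 K, w ^ 4 - w ∈ Q.comap T)
    (hn : ¬ (x ∈ Q.comap T ∧ y ∈ Q.comap T ∧ z ∈ Q.comap T)) : T z - v * T y ∉ Q := by
  intro hmem
  have hpp : p.Prime := Fact.out
  have hR : (Q.comap T).IsPrime := hQ.comap T
  have hvQ : v ∉ Q := by
    intro h
    apply one_notMem Q hQ
    rw [← hv.pow_eq_one]
    exact Q.pow_mem_of_mem h p hpp.pos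
  have hy : T y ∉ Q := by
    intro hy
    have hz : T z ∈ Q := by
      have := Q.add_mem hmem (Q.mul_mem_left v hy)
      rwa [sub_add_cancel] at this
    apply hn
    refine ⟨?_, hy, hz⟩
    have hz' : z ∈ Q.comap T := hz
    have hy' : y ∈ Q.comap T := hy
    have e : x ^ n = z ^ n - y ^ n := by rw [← h]; ring
    apply hR.mem_of_pow_mem n
    rw [e]
    exact (Q.comap T).sub_mem (Ideal.pow_mem_of_mem _ hz' _ (Nat.pos_of_ne_zero hn0))
      (Ideal.pow_mem_of_mem _ hy' _ (Nat.pos_of_ne_zero hn0))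
  have hz : T z ∉ Q := by
    intro hz
    have h1 : v * T y ∈ Q := by
      have := Q.sub_mem hz hmem
      rwa [sub_sub_cancel] at this
    rcases hQ.mem_or_mem h1 with h2 | h2
    · exact hvQ h2
    · exact hy h2
  have key : ∀ w : 𝓞 K, T w ∉ Q → (Ideal.Quotient.mk Q (T w)) ^ 3 = 1 := by
    intro w hw
    have h1 : w * (w ^ 3 - 1) ∈ Q.comap T := by
      have e : w * (w ^ 3 - 1) = w ^ 4 - w := by ring
      rw [e]
      exact h4 w
    have h2 : w ^ 3 - 1 ∈ Q.comap T := (hR.mem_or_mem h1).resolve_left hw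
    rw [Ideal.mem_comap, ← Ideal.Quotient.eq_zero_iff_mem] at h2
    simp only [map_sub, map_pow, map_one] at h2
    exact sub_eq_zero.1 h2
  have e1 := key y hy
  have e2 := key z hz
  have e3 : Ideal.Quotient.mk Q (T z) = Ideal.Quotient.mk Q v * Ideal.Quotient.mk Q (T y) := by
    rw [← map_mul]
    exact Ideal.Quotient.eq.2 hmem
  rw [e3, mul_pow, e1, mul_one, ← map_pow] at e2
  have e4 : 1 - v ^ 3 ∈ Q := by
    rw [← Ideal.Quotient.eq_zero_iff_mem, map_sub, map_one, e2, sub_self]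
  have h3 : IsPrimitiveRoot (v ^ 3) p := by
    apply hv.pow_of_coprime
    rw [Nat.coprime_primes Nat.prime_three hpp]
    omega
  have h6 := p_mem_of_one_sub_mem (v ^ 3) h3 Q e4
  have h7 := int_notMem Q hQ 2 Nat.prime_two (by exact_mod_cast h2Q) (p : ℤ) (by
    intro h
    have h9 : 2 ∣ p := by exact_mod_cast h
    have := (Nat.prime_dvd_prime_iff_eq Nat.prime_two hpp).1 h9
    omega)
  exact h7 (by exact_mod_cast h6)

/-- the norm of `z - ζ y` is prime to two -/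
theorem copK (n : ℕ) (hn0 : n ≠ 0) (h5 : 5 ≤ p) (c : Cyc p E) (i : E →+* N) {x y z : 𝓞 K}
    (h : x ^ n + y ^ n = z ^ n)
    (h2 : ∀ P : Ideal (𝓞 K), P.IsPrime → (2 : 𝓞 K) ∈ P → ¬ (x ∈ P ∧ y ∈ P ∧ z ∈ P))
    (h4 : ∀ P : Ideal (𝓞 K), P.IsPrime → (2 : 𝓞 K) ∈ P → ∀ w : 𝓞 K, w ^ 4 - w ∈ P)
    (f : Polynomial ℤ) (hf : f.map (Int.castRingHom (𝓞 N)) = nrmP K N z (-y))
    (P : Ideal (𝓞 E)) (hP : P.IsPrime) (hP2 : (2 : 𝓞 E) ∈ P) (w : 𝓞 E)
    (hw : (w : E) = aeval c.z f) : w ∉ P := by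
  intro hwP
  haveI := hP
  have hpp : p.Prime := Fact.out
  set j : 𝓞 E →+* 𝓞 N := RingOfIntegers.mapRingHom i with hj
  have hjinj : Function.Injective j := mapRingHom_inj i
  obtain ⟨Q, hQ, hQP⟩ := Y67.WQ.exists_over j hjinj P
  haveI := hQ
  have hmem : ∀ a : 𝓞 E, a ∈ P → j a ∈ Q := by
    intro a ha
    rw [← hQP] at ha
    exact ha
  obtain ⟨u, hu, hup⟩ := exists_zint c
  have hzp : IsPrimitiveRoot (j u) p := hup.map_of_injective hjinj
  set v : 𝓞 N := j u with hv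
  have h2Q : (2 : 𝓞 N) ∈ Q := by
    have := hmem 2 hP2
    rwa [map_ofNat] at this
  have hw' : w = aeval u f := by
    apply RingOfIntegers.ext
    rw [hw, ← hu]
    exact (Polynomial.aeval_algebraMap_apply E u f)
  have hjw : j w = ∏ τ : K →+* N, (RingOfIntegers.mapRingHom τ z +
      v * RingOfIntegers.mapRingHom τ (-y)) := by
    have h1 : j w = (f.map (Int.castRingHom (𝓞 N))).eval v := by
      rw [hw', Polynomial.aeval_def, Polynomial.hom_eval₂, Polynomial.eval_map,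
        RingHom.ext_int (j.comp (algebraMap ℤ (𝓞 E))) (Int.castRingHom (𝓞 N))]
    rw [h1, hf, eval_nrmP]
  have hprod := hmem w hwP
  rw [hjw, hQ.prod_mem_iff] at hprod
  obtain ⟨τ, -, hτ⟩ := hprod
  have h2τ : (2 : 𝓞 K) ∈ Q.comap (RingOfIntegers.mapRingHom τ) := by
    rw [Ideal.mem_comap, map_ofNat]
    exact h2Q
  apply evn_unitK n hn0 h5 (RingOfIntegers.mapRingHom τ) v hzp Q hQ h2Q h
    (h4 _ (hQ.comap _) h2τ) (h2 _ (hQ.comap _) h2τ)
  rw [map_neg, mul_neg, ← sub_eq_add_neg] at hτ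
  exact hτ

/-- the valuations of the norm of `z - ζ y` -/
theorem fldK (a k m : ℕ) (hk : 2 ^ a * k = 1 + p * m) (h5 : 5 ≤ p) (c : Cyc p E) (i : E →+* N)
    (hD : Dn p E N i) {x y z : 𝓞 K} (hx : x ≠ 0) (hy : y ≠ 0) (hz : z ≠ 0)
    (h : x ^ (2 ^ a * p) + y ^ (2 ^ a * p) = z ^ (2 ^ a * p))
    (hcase : ∀ P : Ideal (𝓞 K), P.IsPrime → ((p : ℕ) : 𝓞 K) ∈ P → x ∉ P)
    (h2 : ∀ P : Ideal (𝓞 K), P.IsPrime → (2 : 𝓞 K) ∈ P → ¬ (x ∈ P ∧ y ∈ P ∧ z ∈ P))
    (h4 : ∀ P : Ideal (𝓞 K), P.IsPrime → (2 : 𝓞 K) ∈ P → ∀ w : 𝓞 K, w ^ 4 - w ∈ P)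
    (f : Polynomial ℤ) (hf : f.map (Int.castRingHom (𝓞 N)) = nrmP K N z (-y))
    (g : Polynomial ℤ) (hg : g.map (Int.castRingHom (𝓞 N)) = nrmP K N (z ^ (2 ^ a)) (-y ^ (2 ^ a))) :
    aeval c.z f ≠ 0 ∧ g.eval 1 ≠ 0 ∧
    ∀ P : HeightOneSpectrum (𝓞 E), ∃ m : ℤ, P.valuation E (aeval c.z f) =
      P.valuation E (((g.eval 1) ^ (k) : ℤ) : E) * WithZero.exp ((p : ℤ) * m) := by
  classical
  have hpp : p.Prime := Fact.out
  have hp2 : p ≠ 2 := by omega
  have hodd : Odd p := hpp.odd_of_ne_two hp2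
  have hzint : IsIntegral ℤ (i c.z) := by
    have h1 : (i c.z) ^ p = 1 := by rw [← map_pow, c.prim.pow_eq_one, map_one]
    exact ⟨Polynomial.X ^ p - 1, Polynomial.monic_X_pow_sub_C 1 hpp.ne_zero, by simp [h1]⟩
  obtain ⟨zN, hzN⟩ : ∃ w : 𝓞 N, (w : N) = i c.z := ⟨⟨i c.z, hzint⟩, rfl⟩
  have hzprim : IsPrimitiveRoot zN p := by
    apply IsPrimitiveRoot.of_map_of_injective (f := algebraMap (𝓞 N) N) _
      RingOfIntegers.coe_injective
    have h1 : algebraMap (𝓞 N) N zN = i c.z := hzN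
    rw [h1]
    exact c.prim.map_of_injective i.injective
  have key : ∀ τ : K →+* N,
      (RingOfIntegers.mapRingHom τ (z ^ (2 ^ a)) + RingOfIntegers.mapRingHom τ (-y ^ (2 ^ a)) ≠ 0 ∧
        RingOfIntegers.mapRingHom τ z + zN * RingOfIntegers.mapRingHom τ (-y) ≠ 0) ∧
      ∃ I J : Ideal (𝓞 N), I ≠ ⊥ ∧ J ≠ ⊥ ∧
        Ideal.span {RingOfIntegers.mapRingHom τ z + zN * RingOfIntegers.mapRingHom τ (-y)} *
          J ^ p = Ideal.span {(RingOfIntegers.mapRingHom τ (z ^ (2 ^ a)) +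
            RingOfIntegers.mapRingHom τ (-y ^ (2 ^ a))) ^ (k)} * I ^ p := by
    intro τ
    have finj := mapRingHom_inj τ
    have hu : ∀ P : Ideal (𝓞 N), P.IsPrime → (2 : 𝓞 N) ∈ P →
        RingOfIntegers.mapRingHom τ z - zN * RingOfIntegers.mapRingHom τ y ∉ P := by
      intro P hP hP2
      have h2τ : (2 : 𝓞 K) ∈ P.comap (RingOfIntegers.mapRingHom τ) := by
        rw [Ideal.mem_comap, map_ofNat]
        exact hP2
      exact evn_unitK (2 ^ a * p) (by positivity) h5 (RingOfIntegers.mapRingHom τ) zN hzprim P hP hP2 h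
        (h4 _ (hP.comap _) h2τ) (h2 _ (hP.comap _) h2τ)
    generalize RingOfIntegers.mapRingHom τ = φ at finj hu
    have habd : φ x ^ (2 ^ a * p) + φ y ^ (2 ^ a * p) = φ z ^ (2 ^ a * p) := by
      rw [← map_pow, ← map_pow, ← map_pow, ← map_add, h]
    have e1 : φ z + zN * φ (-y) = φ z - zN * φ y := by
      rw [map_neg]
      ring
    have e2 : φ (z ^ (2 ^ a)) + φ (-y ^ (2 ^ a)) = φ z ^ (2 ^ a) - φ y ^ (2 ^ a) := by
      rw [map_neg, map_pow, map_pow]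
      ring
    obtain ⟨I, J, hI0, hJ0, hIJ⟩ := mainIDEK hp2 a k m hk zN hzprim (φ x) (φ y) (φ z)
      (fun h0 => hx (finj (by rw [h0, map_zero])))
      (fun h0 => hz (finj (by rw [h0, map_zero]))) habd
      (fun P hP hpP hDP => hcase (P.comap φ) (hP.comap φ)
        (by rw [Ideal.mem_comap, map_natCast]; exact hpP) (by rw [Ideal.mem_comap]; exact hDP)) hu
    have h1 : φ z ^ (2 ^ a) - φ y ^ (2 ^ a) ≠ 0 := by
      intro h0
      have h3 : φ x ^ (2 ^ a * p) = 0 := by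
        rw [pow_mul, pow_mul, pow_mul] at habd
        rw [sub_eq_zero.1 h0] at habd
        rw [pow_mul]
        linear_combination habd
      have h5 := (pow_eq_zero_iff (by positivity)).1 h3
      exact hx (finj (by rw [h5, map_zero]))
    rw [e1, e2]
    refine ⟨⟨h1, ?_⟩, I, J, hI0, hJ0, hIJ⟩
    intro h0
    rw [h0, Ideal.span_singleton_eq_bot.2 rfl, Ideal.bot_mul] at hIJ
    have h2 := hIJ.symm
    rw [Ideal.mul_eq_bot, Ideal.span_singleton_eq_bot] at h2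
    rcases h2 with h2 | h2
    · exact pow_ne_zero _ h1 h2
    · exact hI0 ((pow_eq_zero_iff hpp.ne_zero).1 h2)
  choose h1 I J hI0 hJ0 hIJ using key
  have eU : ((∏ τ : K →+* N, (RingOfIntegers.mapRingHom τ z +
      zN * RingOfIntegers.mapRingHom τ (-y)) : 𝓞 N) : N) = i (aeval c.z f) := by
    rw [← eval_f hf zN]
    have e1 : algebraMap (𝓞 N) N (aeval zN f) = aeval (algebraMap (𝓞 N) N zN) f :=
      (aeval_algebraMap_apply N zN f).symm
    have e2 : algebraMap (𝓞 N) N zN = i c.z := hzN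
    rw [e2] at e1
    refine e1.trans ?_
    rw [aeval_def, aeval_def, hom_eval₂]
    congr 1
    exact RingHom.ext_int _ _
  have e0 : (∏ τ : K →+* N, (RingOfIntegers.mapRingHom τ (z ^ (2 ^ a)) +
      RingOfIntegers.mapRingHom τ (-y ^ (2 ^ a)))) = ((g.eval 1 : ℤ) : 𝓞 N) := by
    have e1 := eval_f hg (1 : 𝓞 N)
    simp only [one_mul] at e1
    rw [← e1]
    have e2 := aeval_algebraMap_apply (𝓞 N) (1 : ℤ) g
    rw [map_one] at e2
    rw [e2]
    rfl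
  have eV : ((∏ τ : K →+* N, ((RingOfIntegers.mapRingHom τ (z ^ (2 ^ a)) +
      RingOfIntegers.mapRingHom τ (-y ^ (2 ^ a))) ^ (k)) : 𝓞 N) : N) =
      i (((g.eval 1) ^ (k) : ℤ) : E) := by
    rw [Finset.prod_pow, e0, map_intCast]
    push_cast
    rfl
  have hU0 : (∏ τ : K →+* N, (RingOfIntegers.mapRingHom τ z +
      zN * RingOfIntegers.mapRingHom τ (-y))) ≠ 0 :=
    Finset.prod_ne_zero_iff.2 fun τ _ => (h1 τ).2
  have hV0 : (∏ τ : K →+* N, (RingOfIntegers.mapRingHom τ (z ^ (2 ^ a)) +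
      RingOfIntegers.mapRingHom τ (-y ^ (2 ^ a)))) ≠ 0 :=
    Finset.prod_ne_zero_iff.2 fun τ _ => (h1 τ).1
  have hu0 : aeval c.z f ≠ 0 := by
    intro h0
    rw [h0, map_zero] at eU
    exact hU0 (RingOfIntegers.coe_injective (by rw [map_zero]; exact eU))
  have hg0 : g.eval 1 ≠ 0 := by
    intro h0
    rw [h0, Int.cast_zero] at e0
    exact hV0 e0
  have hv0 : (((g.eval 1) ^ (k) : ℤ) : E) ≠ 0 := by
    exact_mod_cast pow_ne_zero _ hg0
  refine ⟨hu0, hg0, ?_⟩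
  apply hD _ _ hu0 hv0 _ _ eU eV (∏ τ : K →+* N, I τ) (∏ τ : K →+* N, J τ)
  · rw [← Ideal.zero_eq_bot]
    exact Finset.prod_ne_zero_iff.2 fun τ _ => hI0 τ
  · rw [← Ideal.zero_eq_bot]
    exact Finset.prod_ne_zero_iff.2 fun τ _ => hJ0 τ
  · rw [← Ideal.prod_span_singleton, ← Ideal.prod_span_singleton, ← Finset.prod_pow,
      ← Finset.prod_pow, ← Finset.prod_mul_distrib, ← Finset.prod_mul_distrib]
    exact Finset.prod_congr rfl fun τ _ => hIJ τ

end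

end Pool.Agent.N840.QF
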