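import Pool.Agent.Y702.WQ.IDEE

/-!
# The ideal of the factor `z - w y` for exponents divisible by a power of two
-/

set_option autoImplicit false
set_option linter.all false

namespace Pool.Agent.N840.QF

open Finset Polynomial Ideal

variable {R : Type} [CommRing R] [IsDedekindDomain R]

theorem sq_span (z y : R) (hz : z ≠ 0) :
    span {z, y} * span {z, y} = (span {z ^ 2, y ^ 2} : Ideal R) := by
  set G : Ideal R := span {z ^ 2, y ^ 2} with hG
  set g : Ideal R := span {z, y} with hg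
  have hzg : z ∈ g := subset_span (by simp)
  have hyg : y ∈ g := subset_span (by simp)
  have hg0 : g ≠ ⊥ := by
    rintro h0
    rw [h0, mem_bot] at hzg
    exact hz hzg
  have hzG : z ^ 2 ∈ G := subset_span (by simp)
  have hyG : y ^ 2 ∈ G := subset_span (by simp)
  have h1 : g * g * g = G * g := by
    apply le_antisymm
    · rw [hg, span_pair_mul_span_pair, span_mul_span', span_le, ← hg]
      rintro _ ⟨a, ha, b, hb, rfl⟩
      simp only [Set.mem_insert_iff, Set.mem_singleton_iff] at ha hb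
      have k1 : ∀ b ∈ g, z ^ 2 * b ∈ G * g := fun b hb => mul_mem_mul hzG hb
      have k2 : ∀ b ∈ g, y ^ 2 * b ∈ G * g := fun b hb => mul_mem_mul hyG hb
      simp only [SetLike.mem_coe]
      rcases ha with rfl | rfl | rfl | rfl <;> rcases hb with rfl | rfl
      · have := k1 _ hzg; convert this using 1; ring
      · have := k1 _ hyg; convert this using 1; ring
      · have := k1 _ hyg; convert this using 1; ring
      · have := k2 _ hzg; convert this using 1; ring
      · have := k1 _ hyg; convert this using 1; ring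
      · have := k2 _ hzg; convert this using 1; ring
      · have := k2 _ hzg; convert this using 1; ring
      · have := k2 _ hyg; convert this using 1; ring
    · apply Ideal.mul_mono_left
      rw [hG, span_le]
      intro a ha
      simp only [Set.mem_insert_iff, Set.mem_singleton_iff] at ha
      rcases ha with rfl | rfl
      · rw [pow_two]; exact mul_mem_mul hzg hzg
      · rw [pow_two]; exact mul_mem_mul hyg hyg
  exact mul_right_cancel₀ hg0 h1

theorem pow_span (a : ℕ) : ∀ (z y : R), z ≠ 0 →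
    span {z, y} ^ (2 ^ a) = (span {z ^ (2 ^ a), y ^ (2 ^ a)} : Ideal R) := by
  induction a with
  | zero => intro z y _; simp
  | succ a ih =>
    intro z y hz
    have e : ∀ t : R, t ^ (2 ^ (a + 1)) = (t ^ 2) ^ (2 ^ a) := by
      intro t
      rw [← pow_mul]
      congr 1
      ring
    rw [e, e, ← ih (z ^ 2) (y ^ 2) (pow_ne_zero 2 hz), ← sq_span z y hz, ← pow_two, ← pow_mul]
    congr 1
    ring

theorem half {p : ℕ} (hp0 : p ≠ 0) (w : R) (hwu : IsUnit w) (z y : R) (hz : z ≠ 0)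
    (A : Ideal R) (hA0 : A ≠ ⊥)
    (hA : span {z ^ 2 - w ^ 2 * y ^ 2} = span {z ^ 2, y ^ 2} * A ^ p)
    (htwo : ∀ P : Ideal R, P.IsPrime → (2 : R) ∈ P → z - w * y ∉ P) :
    ∃ A' : Ideal R, A' ≠ ⊥ ∧ span {z - w * y} = span {z, y} * A' ^ p := by
  set g : Ideal R := span {z, y} with hg
  have hzg : z ∈ g := subset_span (by simp)
  have hyg : y ∈ g := subset_span (by simp)
  have hg0 : g ≠ ⊥ := by
    rintro h0
    rw [h0, mem_bot] at hzg
    exact hz hzg
  have hgG := sq_span z y hz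
  rw [← hgG, ← hg] at hA
  obtain ⟨J1, hJ1⟩ : g ∣ span {z - w * y} :=
    dvd_span_singleton.2 (sub_mem hzg (mul_mem_left _ _ hyg))
  obtain ⟨J2, hJ2⟩ : g ∣ span {z + w * y} :=
    dvd_span_singleton.2 (add_mem hzg (mul_mem_left _ _ hyg))
  have hfac : (z - w * y) * (z + w * y) = z ^ 2 - w ^ 2 * y ^ 2 := by ring
  have hne : z ^ 2 - w ^ 2 * y ^ 2 ≠ 0 := by
    intro h0
    rw [h0, span_singleton_eq_bot.2 rfl] at hA
    have h1 := hA.symm
    rw [mul_eq_bot] at h1
    rcases h1 with h1 | h1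
    · exact (mul_ne_zero hg0 hg0) h1
    · exact hA0 ((pow_eq_zero_iff hp0).1 h1)
  have hz1 : z - w * y ≠ 0 := by
    intro h0
    apply hne
    rw [← hfac, h0, zero_mul]
  have hJJ : J1 * J2 = A ^ p := by
    have h1 : g * g * (J1 * J2) = g * g * A ^ p := by
      rw [Y702.WQ.aux_mul2, ← hJ1, ← hJ2, span_singleton_mul_span_singleton, hfac, hA]
    exact mul_left_cancel₀ (mul_ne_zero hg0 hg0) h1
  have hJ10 : J1 ≠ ⊥ := by
    rintro h0
    rw [h0, mul_bot, span_singleton_eq_bot] at hJ1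
    exact hz1 hJ1
  have hcop : IsCoprime J1 J2 := by
    by_contra hcon
    rw [Ideal.isCoprime_iff_sup_eq] at hcon
    obtain ⟨P, hP, hle⟩ := exists_le_maximal _ hcon
    have hPp : P.IsPrime := hP.isPrime
    have hPI : P ∣ J1 := dvd_iff_le.2 (le_sup_left.trans hle)
    have hPJ : P ∣ J2 := dvd_iff_le.2 (le_sup_right.trans hle)
    have m1 : z - w * y ∈ P * g := by
      rw [← dvd_span_singleton, hJ1, mul_comm P g]
      exact mul_dvd_mul_left g hPI
    have m2 : z + w * y ∈ P * g := by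
      rw [← dvd_span_singleton, hJ2, mul_comm P g]
      exact mul_dvd_mul_left g hPJ
    have m3 : 2 * z ∈ P * g := by
      have : 2 * z = (z - w * y) + (z + w * y) := by ring
      rw [this]
      exact add_mem m1 m2
    have m4 : 2 * y ∈ P * g := by
      obtain ⟨u, hu⟩ := hwu
      have h1 : (2 : R) * y = ((u⁻¹ : Rˣ) : R) * ((z + w * y) - (z - w * y)) := by
        rw [← hu]
        calc (2 : R) * y = (((u⁻¹ : Rˣ) : R) * (u : R)) * (2 * y) := by rw [Units.inv_mul, one_mul]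
          _ = _ := by ring
      rw [h1]
      exact mul_mem_left _ _ (sub_mem m2 m1)
    have m5 : span {(2 : R)} * g ≤ P * g := by
      rw [hg, span_mul_span', span_le, ← hg]
      rintro _ ⟨a, ha, b, hb, rfl⟩
      rw [Set.mem_singleton_iff] at ha
      subst ha
      simp only [Set.mem_insert_iff, Set.mem_singleton_iff] at hb
      rcases hb with rfl | rfl
      · exact m3
      · exact m4
    have m6 : P ∣ span {(2 : R)} := (mul_dvd_mul_iff_right hg0).1 (dvd_iff_le.2 m5)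
    have m7 : (2 : R) ∈ P := dvd_span_singleton.1 m6
    have m8 : P * g ≤ P := by
      rw [← dvd_iff_le]
      exact dvd_mul_right P g
    exact htwo P hPp m7 (m8 m1)
  obtain ⟨A1, hA1⟩ := exists_eq_pow_of_mul_eq_pow_of_coprime hcop hJJ
  refine ⟨A1, ?_, ?_⟩
  · rintro rfl
    apply hJ10
    rw [hA1]
    exact zero_pow hp0
  · rw [hJ1, hA1]

theorem desc {p : ℕ} (hp0 : p ≠ 0) (a : ℕ) : ∀ (w : R), IsUnit w → ∀ z y : R, z ≠ 0 →
    (∃ A : Ideal R, A ≠ ⊥ ∧ span {z ^ (2 ^ a) - w ^ (2 ^ a) * y ^ (2 ^ a)} =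
      span {z ^ (2 ^ a), y ^ (2 ^ a)} * A ^ p) →
    (∀ P : Ideal R, P.IsPrime → (2 : R) ∈ P → z - w * y ∉ P) →
    ∃ A' : Ideal R, A' ≠ ⊥ ∧ span {z - w * y} = span {z, y} * A' ^ p := by
  induction a with
  | zero =>
    rintro w - z y - ⟨A, hA0, hA⟩ -
    exact ⟨A, hA0, by simpa using hA⟩
  | succ a ih =>
    rintro w hw z y hz ⟨A, hA0, hA⟩ htwo
    have e : ∀ t : R, t ^ (2 ^ (a + 1)) = (t ^ 2) ^ (2 ^ a) := by
      intro t
      rw [← pow_mul]
      congr 1
      ring
    rw [e, e, e] at hA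
    obtain ⟨B, hB0, hB⟩ := ih (w ^ 2) (hw.pow 2) (z ^ 2) (y ^ 2) (pow_ne_zero 2 hz) ⟨A, hA0, hA⟩
      (by
        intro P hP h2 hmem
        have e1 : z ^ 2 - w ^ 2 * y ^ 2 = (z - w * y) * (z + w * y) := by ring
        rw [e1] at hmem
        rcases hP.mem_or_mem hmem with h | h
        · exact htwo P hP h2 h
        · apply htwo P hP h2
          have e2 : z - w * y = (z + w * y) - 2 * (w * y) := by ring
          rw [e2]
          exact P.sub_mem h (P.mul_mem_right _ h2))
    exact half hp0 w hw z y hz B hB0 hB htwo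

theorem mainIDEK {p : ℕ} [Fact p.Prime] (hp2 : p ≠ 2) (a h m : ℕ) (hh : 2 ^ a * h = 1 + p * m)
    (w : R) (hw : IsPrimitiveRoot w p) (x y z : R) (hx : x ≠ 0) (hz : z ≠ 0)
    (heq : x ^ (2 ^ a * p) + y ^ (2 ^ a * p) = z ^ (2 ^ a * p))
    (hcase : ∀ P : Ideal R, P.IsPrime → ((p : ℕ) : R) ∈ P → x ∉ P)
    (htwo : ∀ P : Ideal R, P.IsPrime → (2 : R) ∈ P → z - w * y ∉ P) :
    ∃ A B : Ideal R, A ≠ ⊥ ∧ B ≠ ⊥ ∧
      span {z - w * y} * B ^ p = span {(z ^ (2 ^ a) - y ^ (2 ^ a)) ^ h} * A ^ p := by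
  have hp : p.Prime := Fact.out
  have hodd : Odd p := hp.odd_of_ne_two hp2
  have hp0 : p ≠ 0 := hp.ne_zero
  have hwu : IsUnit w := IsUnit.of_pow_eq_one hw.pow_eq_one hp0
  have hF := Y702.WQ.fam p hp2 R w hw (z ^ (2 ^ a)) (-y ^ (2 ^ a)) (-x ^ (2 ^ a))
    (pow_ne_zero _ hz) (neg_ne_zero.2 (pow_ne_zero _ hx))
    (by
      rw [hodd.neg_pow, hodd.neg_pow, ← pow_mul, ← pow_mul, ← pow_mul]
      linear_combination -heq)
    (by
      intro P hP h1 h2
      have h3 : x ^ (2 ^ a) ∈ P := by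
        have := P.neg_mem h2
        rwa [neg_neg] at this
      exact hcase P hP h1 (hP.mem_of_pow_mem _ h3))
  have hspan : (span {z ^ (2 ^ a), -y ^ (2 ^ a)} : Ideal R) = span {z ^ (2 ^ a), y ^ (2 ^ a)} := by
    apply le_antisymm
    · rw [span_le]
      intro t ht
      simp only [Set.mem_insert_iff, Set.mem_singleton_iff] at ht
      rcases ht with rfl | rfl
      · exact subset_span (by simp)
      · exact neg_mem (subset_span (by simp))
    · rw [span_le]
      intro t ht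
      simp only [Set.mem_insert_iff, Set.mem_singleton_iff] at ht
      rcases ht with rfl | rfl
      · exact subset_span (by simp)
      · rw [← neg_neg (y ^ (2 ^ a))]
        exact neg_mem (subset_span (by simp))
  rw [hspan] at hF
  obtain ⟨hne, A, hA0, hA⟩ := hF (w ^ (2 ^ a)) (by
    rw [← pow_mul, mul_comm, pow_mul, hw.pow_eq_one, one_pow])
  obtain ⟨-, B, hB0, hB⟩ := hF 1 (one_pow p)
  have eA : z ^ (2 ^ a) + w ^ (2 ^ a) * -y ^ (2 ^ a) = z ^ (2 ^ a) - w ^ (2 ^ a) * y ^ (2 ^ a) := by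
    ring
  have eB : z ^ (2 ^ a) + 1 * -y ^ (2 ^ a) = z ^ (2 ^ a) - y ^ (2 ^ a) := by ring
  rw [eA] at hA
  rw [eB] at hB
  obtain ⟨A', hA'0, hA'⟩ := desc hp0 a w hwu z y hz ⟨A, hA0, hA⟩ htwo
  have hg0 : (span {z, y} : Ideal R) ≠ ⊥ := by
    intro h0
    have hzg : z ∈ (span {z, y} : Ideal R) := subset_span (by simp)
    rw [h0, mem_bot] at hzg
    exact hz hzg
  refine ⟨A', span {z, y} ^ m * B ^ h, hA'0, mul_ne_zero (pow_ne_zero _ hg0) (pow_ne_zero _ hB0), ?_⟩
  rw [← span_singleton_pow, hB, ← pow_span a z y hz, hA', mul_pow, mul_pow, ← pow_mul, ← pow_mul,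
    ← pow_mul, ← pow_mul, hh, pow_add, pow_one, mul_comm m p, mul_comm h p]
  rw [mul_assoc, mul_comm (A' ^ p), ← mul_assoc, ← mul_assoc]

end Pool.Agent.N840.QF
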