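import Pool.Agent.N840.QF.Dat

/-!
# Equality of norms modulo `p`
-/

set_option autoImplicit false

namespace Pool.Agent.N840.QF

open NumberField IsDedekindDomain Polynomial Pool.Agent.Y546.WQ Pool.Agent.N840.FC

/-- the consequence of the relation of Wieferich for both signs -/
theorem keyW {p : ℕ} [Fact p.Prime] (h11 : 11 ≤ p) (a b r : ZMod p) (k : ℕ) (ha : a ≠ 0)
    (hb : b ≠ 0) (hk : k = 0 ∨ k = 1 ∨ k = 2 ∨ k = 3 ∨ k = 4)
    (e1 : (k : ZMod p) * (a - r + b) = 2 * (-r + 2 * b))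
    (e2 : (k : ZMod p) * (a + r + b) = 2 * (r + 2 * b)) :
    a = b ∨ (r = 0 ∧ (a = 3 * b ∨ b = 3 * a)) := by
  have hp : p.Prime := Fact.out
  have n2 : (2 : ZMod p) ≠ 0 := by
    have := natc_ne hp 2 (fun h => by have := Nat.le_of_dvd (by norm_num) h; omega)
    exact_mod_cast this
  have n4 : (4 : ZMod p) ≠ 0 := by
    have : (4 : ZMod p) = 2 * 2 := by norm_num
    rw [this]
    exact mul_ne_zero n2 n2
  rcases hk with rfl | rfl | rfl | rfl | rfl
  · exfalso
    push_cast at e1 e2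
    have e3 : (4 : ZMod p) * (2 * b) = 0 := by linear_combination -e1 - e2
    exact mul_ne_zero n4 (mul_ne_zero n2 hb) e3
  · right
    push_cast at e1 e2
    have e3 : (2 : ZMod p) * r = 0 := by linear_combination e1 - e2
    have e4 := (mul_eq_zero.1 e3).resolve_left n2
    refine ⟨e4, Or.inl ?_⟩
    rw [e4] at e1
    linear_combination e1
  · left
    push_cast at e1 e2
    have e3 : (2 : ZMod p) * (a - b) = 0 := by linear_combination e1
    exact sub_eq_zero.1 ((mul_eq_zero.1 e3).resolve_left n2)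
  · right
    push_cast at e1 e2
    have e3 : (2 : ZMod p) * r = 0 := by linear_combination e2 - e1
    have e4 := (mul_eq_zero.1 e3).resolve_left n2
    refine ⟨e4, Or.inr ?_⟩
    rw [e4] at e1
    linear_combination -e1
  · exfalso
    push_cast at e1 e2
    have e3 : (4 : ZMod p) * (2 * a) = 0 := by linear_combination e1 + e2
    exact mul_ne_zero n4 (mul_ne_zero n2 ha) e3

section

variable {K : Type} [Field K] [NumberField K]

theorem norm_neg' (σ : 𝓞 K →+* 𝓞 K)
    (hN : ∀ a : 𝓞 K, ((Algebra.norm ℤ a : ℤ) : 𝓞 K) = a * σ a) (w : 𝓞 K) :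
    Algebra.norm ℤ (-w) = Algebra.norm ℤ w := by
  have : ((Algebra.norm ℤ (-w) : ℤ) : 𝓞 K) = (Algebra.norm ℤ w : ℤ) := by
    rw [hN, hN, map_neg]
    ring
  exact_mod_cast this

theorem norm_nz {p : ℕ} (hp : p.Prime) (σ : 𝓞 K →+* 𝓞 K)
    (hN : ∀ a : 𝓞 K, ((Algebra.norm ℤ a : ℤ) : 𝓞 K) = a * σ a) (w : 𝓞 K)
    (hw : ∀ P : Ideal (𝓞 K), P.IsPrime → ((p : ℕ) : 𝓞 K) ∈ P → w ∉ P) :
    ((Algebra.norm ℤ w : ℤ) : ZMod p) ≠ 0 := fun h0 =>
  norm_ncp hp σ hN hw ((ZMod.intCast_zmod_eq_zero_iff_dvd _ p).1 h0)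

theorem SolK.swap {a p : ℕ} {x y z : 𝓞 K} (h : SolK a p K x y z) : SolK a p K y x z where
  x0 := h.y0
  y0 := h.x0
  z0 := h.z0
  eq := by rw [← h.eq]; ring
  cp := fun P hP hp => ⟨(h.cp P hP hp).2.1, (h.cp P hP hp).1, (h.cp P hP hp).2.2⟩
  two := fun P hP h2 h' => h.two P hP h2 ⟨h'.2.1, h'.1, h'.2.2⟩

theorem SolK.sq {a p : ℕ} {x y z : 𝓞 K} (h : SolK (a + 1) p K x y z) :
    SolK a p K (x ^ 2) (y ^ 2) (z ^ 2) where
  x0 := pow_ne_zero 2 h.x0
  y0 := pow_ne_zero 2 h.y0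
  z0 := pow_ne_zero 2 h.z0
  eq := by
    have e : ∀ t : 𝓞 K, (t ^ 2) ^ (2 ^ a * p) = t ^ (2 ^ (a + 1) * p) := by
      intro t
      rw [← pow_mul]
      congr 1
      ring
    rw [e, e, e, h.eq]
  cp := fun P hP hp => ⟨fun h' => (h.cp P hP hp).1 (hP.mem_of_pow_mem 2 h'),
    fun h' => (h.cp P hP hp).2.1 (hP.mem_of_pow_mem 2 h'),
    fun h' => (h.cp P hP hp).2.2 (hP.mem_of_pow_mem 2 h')⟩
  two := fun P hP h2 h' => h.two P hP h2 ⟨hP.mem_of_pow_mem 2 h'.1, hP.mem_of_pow_mem 2 h'.2.1,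
    hP.mem_of_pow_mem 2 h'.2.2⟩

/-- one pair, both signs -/
theorem pairW {p : ℕ} [Fact p.Prime] (h11 : 11 ≤ p) (hW : ¬ p ^ 2 ∣ 2 ^ (p - 1) - 1)
    (hK : Module.finrank ℚ K = 2) (σ : 𝓞 K →+* 𝓞 K)
    (hN : ∀ a : 𝓞 K, ((Algebra.norm ℤ a : ℤ) : 𝓞 K) = a * σ a)
    (hT : ∀ a : 𝓞 K, ((Algebra.trace ℤ (𝓞 K) a : ℤ) : 𝓞 K) = a + σ a)
    {a : ℕ} (ha : 1 ≤ a) {x y z : 𝓞 K} (s : SolK a p K x y z) (A B r : ℤ)
    (hA : A = Algebra.norm ℤ z)
    (hB : B = Algebra.norm ℤ y) (hr : r = Algebra.trace ℤ (𝓞 K) (z * σ y)) :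
    (A : ZMod p) = B ∨ ((r : ZMod p) = 0 ∧ ((A : ZMod p) = 3 * B ∨ (B : ZMod p) = 3 * A)) := by
  have hp : p.Prime := Fact.out
  have A0 : (A : ZMod p) ≠ 0 := by
    rw [hA]
    exact norm_nz hp σ hN z fun P hP hpP => (s.cp P hP hpP).2.2
  have B0 : (B : ZMod p) ≠ 0 := by
    rw [hB]
    exact norm_nz hp σ hN y fun P hP hpP => (s.cp P hP hpP).2.1
  have d1 := datK a (by omega) hK σ hN hT s A B r hA hB hr
  have d1' := datK a (by omega) hK σ hN hT (s.negy ha) A B (-r) hA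
    (by rw [hB, norm_neg' σ hN]) (by rw [map_neg, mul_neg, map_neg, hr])
  obtain ⟨k, hk⟩ := Pat.exists_of d1.1
  exact keyW h11 A B r k A0 B0 hk.cases (d1.2.1 hW k hk) (by
    have := d1'.2.1 hW k hk.neg
    push_cast at this
    linear_combination this)

/-- even exponents: the three norms are equal -/
theorem topE {p : ℕ} [Fact p.Prime] (h11 : 11 ≤ p)
    (hcond : Bern p 2 ∨ (p ≠ 13 ∧ ¬ p ^ 2 ∣ 2 ^ (p - 1) - 1))
    (hK : Module.finrank ℚ K = 2) (σ : 𝓞 K →+* 𝓞 K)
    (hN : ∀ a : 𝓞 K, ((Algebra.norm ℤ a : ℤ) : 𝓞 K) = a * σ a)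
    (hT : ∀ a : 𝓞 K, ((Algebra.trace ℤ (𝓞 K) a : ℤ) : 𝓞 K) = a + σ a)
    {x y z : 𝓞 K} (s : SolK 1 p K x y z) (A B D r : ℤ) (hA : A = Algebra.norm ℤ z)
    (hB : B = Algebra.norm ℤ y) (hD : D = Algebra.norm ℤ x)
    (hr : r = Algebra.trace ℤ (𝓞 K) (z * σ y)) :
    (A : ZMod p) = B ∧ (A : ZMod p) = D ∧ (r : ZMod p) ^ 2 = 3 * A ^ 2 := by
  have hp : p.Prime := Fact.out
  have hp2 : p ≠ 2 := by omega
  obtain ⟨q, hq⟩ : ∃ q : ℤ, q = Algebra.trace ℤ (𝓞 K) (z * σ x) := ⟨_, rfl⟩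
  have s' : SolE p K x y z := ⟨s.x0, s.y0, s.z0, by simpa using s.eq, s.cp, s.two⟩
  have f1 := datE2 hp hp2 σ hN hT s' A B D r hA hB hD hr
  have f2 := datE2 hp hp2 σ hN hT s'.swap A D B q hA hD hB hq
  have A0 : (A : ZMod p) ≠ 0 := by
    rw [hA]
    exact norm_nz hp σ hN z fun P hP hpP => (s.cp P hP hpP).2.2
  have B0 : (B : ZMod p) ≠ 0 := by
    rw [hB]
    exact norm_nz hp σ hN y fun P hP hpP => (s.cp P hP hpP).2.1
  have D0 : (D : ZMod p) ≠ 0 := by
    rw [hD]
    exact norm_nz hp σ hN x fun P hP hpP => (s.cp P hP hpP).1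
  have hprime : ∀ l : ℕ, l.Prime → l < 11 ∨ l ≠ p → (l : ZMod p) ≠ 0 := by
    intro l hl hlp
    apply natc_ne hp
    intro hdv
    have := (Nat.prime_dvd_prime_iff_eq hp hl).1 hdv
    omega
  have n2 : (2 : ZMod p) ≠ 0 := by exact_mod_cast hprime 2 Nat.prime_two (by omega)
  have n3 : (3 : ZMod p) ≠ 0 := by exact_mod_cast hprime 3 Nat.prime_three (by omega)
  have n5 : (5 : ZMod p) ≠ 0 := by exact_mod_cast hprime 5 Nat.prime_five (by omega)
  have n7 : (7 : ZMod p) ≠ 0 := by exact_mod_cast hprime 7 (by norm_num) (by omega)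
  have sq0 : ∀ u v : ZMod p, u ≠ 0 → v ≠ 0 → v * u ^ 2 = 0 → False := by
    intro u v hu hv' h0
    exact mul_ne_zero hv' (pow_ne_zero 2 hu) h0
  have hABD : (A : ZMod p) = B ∧ (A : ZMod p) = D := by
    rcases hcond with hc | ⟨h13, hW⟩
    · exact ⟨(datK 1 (by omega) hK σ hN hT s A B r hA hB hr).2.2.2 hc,
        (datK 1 (by omega) hK σ hN hT s.swap A D q hA hD hq).2.2.2 hc⟩
    · have k1 := pairW h11 hW hK σ hN hT le_rfl s A B r hA hB hr
      have k2 := pairW h11 hW hK σ hN hT le_rfl s.swap A D q hA hD hq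
      have n15 : (15 : ZMod p) ≠ 0 := by
        have : (15 : ZMod p) = 3 * 5 := by norm_num
        rw [this]
        exact mul_ne_zero n3 n5
      have n13 : (13 : ZMod p) ≠ 0 := by
        exact_mod_cast hprime 13 (by norm_num) (Or.inr fun h => h13 h.symm)
      rcases k1 with k1 | ⟨k0, k1 | k1⟩ <;> rcases k2 with k2 | ⟨l0, k2 | k2⟩
      · exact ⟨k1, k2⟩
      · exfalso
        refine sq0 _ _ D0 n7 ?_
        rw [← k1, l0, k2] at f2
        linear_combination -f2
      · exfalso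
        refine sq0 _ _ A0 n15 ?_
        rw [← k1, l0, k2] at f2
        linear_combination -f2
      · exfalso
        refine sq0 _ _ B0 n7 ?_
        rw [← k2, k0, k1] at f1
        linear_combination -f1
      · exfalso
        refine sq0 _ _ B0 n15 ?_
        have e : (D : ZMod p) = B := by
          have : (3 : ZMod p) * (D - B) = 0 := by linear_combination k1 - k2
          exact sub_eq_zero.1 ((mul_eq_zero.1 this).resolve_left n3)
        rw [e, k0, k1] at f1
        linear_combination -f1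
      · exfalso
        refine sq0 _ _ B0 n13 ?_
        rw [k2, k1, k0] at f1
        rw [k2, k1, l0] at f2
        linear_combination (-2 : ZMod p) * f1 - f2
      · exfalso
        refine sq0 _ _ A0 n15 ?_
        rw [← k2, k0, k1] at f1
        linear_combination -f1
      · exfalso
        refine sq0 _ _ D0 n13 ?_
        rw [k1, k2, k0] at f1
        rw [k1, k2, l0] at f2
        linear_combination (-2 : ZMod p) * f2 - f1
      · exfalso
        refine sq0 _ _ A0 n7 ?_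
        rw [k1, k2, k0] at f1
        linear_combination -f1
  obtain ⟨hAB, hAD⟩ := hABD
  refine ⟨hAB, hAD, ?_⟩
  rw [← hAB, ← hAD] at f1
  linear_combination f1

/-- equality of norms at the lowest level -/
theorem lev {p : ℕ} [Fact p.Prime] (h11 : 11 ≤ p)
    (hcond : Bern p 2 ∨ (p ≠ 13 ∧ ¬ p ^ 2 ∣ 2 ^ (p - 1) - 1))
    (hK : Module.finrank ℚ K = 2) (σ : 𝓞 K →+* 𝓞 K)
    (hN : ∀ a : 𝓞 K, ((Algebra.norm ℤ a : ℤ) : 𝓞 K) = a * σ a)
    (hT : ∀ a : 𝓞 K, ((Algebra.trace ℤ (𝓞 K) a : ℤ) : 𝓞 K) = a + σ a)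
    (a : ℕ) : ∀ {x y z : 𝓞 K}, SolK (a + 1) p K x y z →
    ((Algebra.norm ℤ z : ℤ) : ZMod p) = (Algebra.norm ℤ y : ℤ) := by
  have hp : p.Prime := Fact.out
  rcases hcond with hc | ⟨h13, hW⟩
  · intro x y z s
    exact (datK (a + 1) (by omega) hK σ hN hT s _ _ _ rfl rfl rfl).2.2.2 hc
  · induction a with
    | zero =>
      intro x y z s
      exact (topE h11 (Or.inr ⟨h13, hW⟩) hK σ hN hT s _ _ _ _ rfl rfl rfl rfl).1
    | succ a ih =>
      intro x y z s
      have h1 := ih s.sq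
      obtain ⟨A, hA⟩ : ∃ A : ℤ, A = Algebra.norm ℤ z := ⟨_, rfl⟩
      obtain ⟨B, hB⟩ : ∃ B : ℤ, B = Algebra.norm ℤ y := ⟨_, rfl⟩
      have k1 := pairW h11 hW hK σ hN hT (by omega) s A B _ hA hB rfl
      rw [map_pow, map_pow, ← hA, ← hB] at h1
      push_cast at h1
      rw [← hA, ← hB]
      have A0 : (A : ZMod p) ≠ 0 := by
        rw [hA]
        exact norm_nz hp σ hN z fun P hP hpP => (s.cp P hP hpP).2.2
      have B0 : (B : ZMod p) ≠ 0 := by
        rw [hB]
        exact norm_nz hp σ hN y fun P hP hpP => (s.cp P hP hpP).2.1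
      have n8 : (8 : ZMod p) ≠ 0 := by
        have := natc_ne hp 8 (fun h => by have := Nat.le_of_dvd (by norm_num) h; omega)
        exact_mod_cast this
      rcases k1 with k1 | ⟨-, k1 | k1⟩
      · exact k1
      · exfalso
        rw [k1] at h1
        exact mul_ne_zero n8 (pow_ne_zero 2 B0) (by linear_combination h1)
      · exfalso
        rw [k1] at h1
        exact mul_ne_zero n8 (pow_ne_zero 2 A0) (by linear_combination -h1)

/-- odd exponents: the three norms are equal -/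
theorem topO {p : ℕ} [Fact p.Prime] (h11 : 11 ≤ p)
    (hcond : Bern p 2 ∨ (p - 3 ∉ irr p ∧ ¬ p ^ 2 ∣ 2 ^ (p - 1) - 1))
    (hK : Module.finrank ℚ K = 2) (σ : 𝓞 K →+* 𝓞 K)
    (hN : ∀ a : 𝓞 K, ((Algebra.norm ℤ a : ℤ) : 𝓞 K) = a * σ a)
    (hT : ∀ a : 𝓞 K, ((Algebra.trace ℤ (𝓞 K) a : ℤ) : 𝓞 K) = a + σ a)
    {x y z : 𝓞 K} (s : SolK 0 p K x y z) (A B D r : ℤ) (hA : A = Algebra.norm ℤ z)
    (hB : B = Algebra.norm ℤ y) (hD : D = Algebra.norm ℤ x)
    (hr : r = Algebra.trace ℤ (𝓞 K) (z * σ y)) :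
    (A : ZMod p) = B ∧ (A : ZMod p) = D ∧ (r : ZMod p) = A := by
  have hp : p.Prime := Fact.out
  have hp2 : p ≠ 2 := by omega
  have hodd : Odd p := hp.odd_of_ne_two hp2
  obtain ⟨q, hq⟩ : ∃ q : ℤ, q = Algebra.trace ℤ (𝓞 K) (z * σ x) := ⟨_, rfl⟩
  -- the third pair
  have s3 : SolK 0 p K z (-y) x := by
    refine ⟨s.z0, neg_ne_zero.2 s.y0, s.x0, ?_, ?_, ?_⟩
    · have := s.eq
      simp only [pow_zero, one_mul] at this ⊢
      rw [hodd.neg_pow]
      linear_combination -this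
    · intro P hP hpP
      obtain ⟨h1, h2, h3⟩ := s.cp P hP hpP
      exact ⟨h3, fun h => h2 (neg_mem_iff.1 h), h1⟩
    · intro P hP h2P h
      exact s.two P hP h2P ⟨h.2.2, neg_mem_iff.1 h.2.1, h.1⟩
  obtain ⟨t, ht⟩ : ∃ t : ℤ, t = Algebra.trace ℤ (𝓞 K) (x * σ (-y)) := ⟨_, rfl⟩
  have lin : ∀ {x y z : 𝓞 K} (s : SolK 0 p K x y z),
      ((Algebra.norm ℤ x : ℤ) : ZMod p) = (Algebra.norm ℤ z : ℤ) -
        (Algebra.trace ℤ (𝓞 K) (z * σ y) : ℤ) + (Algebra.norm ℤ y : ℤ) := by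
    intro x y z s
    have h1 := norm_rel σ hN hT p hp (X := z) (Y := -y) (Z := -x) (fun P hP hpP => by
      have := s.lin hp hp2 P hP hpP
      simpa using this)
    rw [norm_neg' σ hN, norm_neg' σ hN, map_neg, mul_neg, map_neg] at h1
    have := (ZMod.intCast_zmod_eq_zero_iff_dvd _ p).2 h1
    push_cast at this
    linear_combination -this
  have l1 := lin s
  have l2 := lin s.swap
  have l3 := lin s3
  rw [← hA, ← hB, ← hD, ← hr] at l1
  rw [← hA, ← hB, ← hD, ← hq] at l2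
  rw [norm_neg' σ hN, ← hA, ← hB, ← hD, ← ht] at l3
  have d1 := datK 0 (by omega) hK σ hN hT s A B r hA hB hr
  have d2 := datK 0 (by omega) hK σ hN hT s.swap A D q hA hD hq
  have d3 := datK 0 (by omega) hK σ hN hT s3 D B t hD (by rw [norm_neg' σ hN, hB]) ht
  have A0 : (A : ZMod p) ≠ 0 := by
    rw [hA]
    exact norm_nz hp σ hN z fun P hP hpP => (s.cp P hP hpP).2.2
  have B0 : (B : ZMod p) ≠ 0 := by
    rw [hB]
    exact norm_nz hp σ hN y fun P hP hpP => (s.cp P hP hpP).2.1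
  have D0 : (D : ZMod p) ≠ 0 := by
    rw [hD]
    exact norm_nz hp σ hN x fun P hP hpP => (s.cp P hP hpP).1
  have hABD : (A : ZMod p) = B ∧ (A : ZMod p) = D := by
    rcases hcond with hc | ⟨hc, hW⟩
    · exact ⟨d1.2.2.2 hc, d2.2.2.2 hc⟩
    · have hreg : Reg p 3 := reg_of Y61.WQ.mainBER 3 (by decide) le_rfl (by omega) hc
      have r1 := d1.2.2.1 hreg
      have r2 := d2.2.2.1 hreg
      have r3 := d3.2.2.1 hreg
      rw [← l1] at r1
      rw [← l2] at r2
      rw [← l3] at r3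
      -- a pair with different norms has the third norm different from both
      have nk : ∀ (a b c r : ZMod p) (k : ℕ), (k = 0 ∨ k = 1 ∨ k = 2 ∨ k = 3 ∨ k = 4) →
          (k : ZMod p) * (a - r + b) = 2 * (-r + 2 * b) → c = a - r + b → a ≠ 0 → c = a →
          2 * b = 7 * a → False := by
        intro a b c r k hk e1 e2 ha e3 e4
        have e5 : (k : ZMod p) * a = 7 * a := by
          have e6 : r = b := by
            rw [e3] at e2
            linear_combination e2
          rw [e6] at e1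
          have e7 : (k : ZMod p) * a = 2 * b := by linear_combination e1
          rw [e7, e4]
        have e6 : (k : ZMod p) = 7 := mul_right_cancel₀ ha e5
        have e7 : ((7 - k : ℕ) : ZMod p) = 0 := by
          rw [Nat.cast_sub (by omega), e6]
          norm_num
        have e8 := (ZMod.natCast_eq_zero_iff _ _).1 e7
        have := Nat.le_of_dvd (by omega) e8
        omega
      have nk' : ∀ (a b c r : ZMod p) (k : ℕ), (k = 0 ∨ k = 1 ∨ k = 2 ∨ k = 3 ∨ k = 4) →
          (k : ZMod p) * (a - r + b) = 2 * (-r + 2 * b) → c = a - r + b → b ≠ 0 → c = b →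
          2 * a = 7 * b → False := by
        intro a b c r k hk e1 e2 hb e3 e4
        have e6 : r = a := by
          rw [e3] at e2
          linear_combination e2
        rw [e6] at e1
        have e7 : ((k : ZMod p) + 3) * b = 0 := by linear_combination e1 - e4
        have e8 : ((k + 3 : ℕ) : ZMod p) = 0 := by
          push_cast
          exact (mul_eq_zero.1 e7).resolve_right hb
        have e9 := (ZMod.natCast_eq_zero_iff _ _).1 e8
        have := Nat.le_of_dvd (by omega) e9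
        omega
      have n2 : (2 : ZMod p) ≠ 0 := by
        have := natc_ne hp 2 (fun h => by have := Nat.le_of_dvd (by norm_num) h; omega)
        exact_mod_cast this
      obtain ⟨k1, hk1⟩ := Pat.exists_of d1.1
      obtain ⟨k2, hk2⟩ := Pat.exists_of d2.1
      obtain ⟨k3, hk3⟩ := Pat.exists_of d3.1
      have w1 := d1.2.1 hW k1 hk1
      have w2 := d2.2.1 hW k2 hk2
      have w3 := d3.2.1 hW k3 hk3
      generalize (A : ZMod p) = A at *
      generalize (B : ZMod p) = B at *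
      generalize (D : ZMod p) = D at *
      by_cases hAB : A = B
      · by_cases hAD : A = D
        · exact ⟨hAB, hAD⟩
        · exfalso
          subst hAB
          have e := (mul_eq_zero.1 r2).resolve_left (sub_ne_zero.2 hAD)
          have e2 : D * (2 * D - 7 * A) = 0 := by linear_combination e
          have e3 := (mul_eq_zero.1 e2).resolve_left D0
          exact nk A D A q k2 hk2.cases w2 l2 A0 rfl (by linear_combination e3)
      · have e1 := (mul_eq_zero.1 r1).resolve_left (sub_ne_zero.2 hAB)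
        by_cases hAD : A = D
        · exfalso
          subst hAD
          have e2 : B * (2 * B - 7 * A) = 0 := by linear_combination e1
          have e3 := (mul_eq_zero.1 e2).resolve_left B0
          exact nk A B A r k1 hk1.cases w1 l1 A0 rfl (by linear_combination e3)
        · have e2 := (mul_eq_zero.1 r2).resolve_left (sub_ne_zero.2 hAD)
          by_cases hDB : D = B
          · exfalso
            subst hDB
            have e3 : A * (2 * A - 7 * D) = 0 := by linear_combination e1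
            have e4 := (mul_eq_zero.1 e3).resolve_left A0
            exact nk' A D D r k1 hk1.cases w1 l1 D0 rfl (by linear_combination e4)
          · exfalso
            have e3 := (mul_eq_zero.1 r3).resolve_left (sub_ne_zero.2 hDB)
            have f1 : (D - B) * (D + B - A) = 0 := by linear_combination e2 - e1
            have f2 : (A - B) * (A + B - D) = 0 := by linear_combination e2 - e3
            have g1 := (mul_eq_zero.1 f1).resolve_left (sub_ne_zero.2 hDB)
            have g2 := (mul_eq_zero.1 f2).resolve_left (sub_ne_zero.2 hAB)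
            exact mul_ne_zero n2 B0 (by linear_combination g1 + g2)
  obtain ⟨hAB, hAD⟩ := hABD
  refine ⟨hAB, hAD, ?_⟩
  rw [← hAB, ← hAD] at l1
  linear_combination l1

end

end Pool.Agent.N840.QF
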